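import Pool.Agent.W5h93.AP.Glue

/-! The proportion of the good classes. -/

set_option autoImplicit false
set_option linter.all false

open Matrix

noncomputable section

namespace Pool.Agent.W5h93.AP

open Pool.Agent.Y109.PI Pool.Agent.W5h93.PI

/-- the fibres of an additive map -/
theorem fib {Y Z : Type*} [AddCommGroup Y] (E : Y → Z) (hE : ∀ a b c, E a = E b → E (a + c) = E (b + c))
    (hs : Function.Surjective E) (P : Z → Prop) :
    Nat.card {y // P (E y)} = Nat.card {z // P z} * Nat.card {y // E y = E 0} := by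
  choose σ hσ using hs
  have key : ∀ (k : Y) (z : Z), E k = E 0 → E (k + σ z) = z := by
    intro k z hk
    have := hE k 0 (σ z) hk
    rw [this, zero_add, hσ]
  rw [← Nat.card_prod]
  refine Nat.card_congr
    { toFun := fun y => (⟨E y.1, y.2⟩, ⟨y.1 + - σ (E y.1), by
        have := hE y.1 (σ (E y.1)) (- σ (E y.1)) (hσ _).symm
        rw [this, add_neg_cancel]⟩)
      invFun := fun x => ⟨x.2.1 + σ x.1.1, by
        rw [key _ _ x.2.2]
        exact x.1.2⟩
      left_inv := ?_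
      right_inv := ?_ }
  · rintro ⟨y, hy⟩
    exact Subtype.ext (neg_add_cancel_right _ _)
  · rintro ⟨⟨z, hz⟩, ⟨k, hk⟩⟩
    refine Prod.ext (Subtype.ext (key _ _ hk)) (Subtype.ext ?_)
    simp only
    rw [key _ _ hk, add_neg_cancel_right]

theorem fib_all {Y Z : Type*} [AddCommGroup Y] (E : Y → Z) (hE : ∀ a b c, E a = E b → E (a + c) = E (b + c))
    (hs : Function.Surjective E) : Nat.card Y = Nat.card Z * Nat.card {y // E y = E 0} := by
  have h := fib E hE hs (fun _ => True)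
  rw [Nat.card_congr (Equiv.subtypeUnivEquiv fun _ => trivial),
    Nat.card_congr (Equiv.subtypeUnivEquiv fun _ => trivial)] at h
  exact h

section red

variable {N n : ℕ}

/-- the upper triangular part -/
def upv (A : Matrix (Fin N) (Fin N) (ZMod n)) : Fin N → Fin N → ℤ := fun u v =>
  if u < v then ((A u v).val : ℤ) else 0

theorem cast_val [NeZero n] (a : ZMod n) : (((a.val : ℕ) : ℤ) : ZMod n) = a := by
  rw [Int.cast_natCast]
  exact ZMod.natCast_zmod_val _

theorem cast_dif_upv [NeZero n] {A : Matrix (Fin N) (Fin N) (ZMod n)} (hA : Alt A) (u v : Fin N) :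
    ((dif (upv A) u v : ℤ) : ZMod n) = A u v := by
  simp only [dif, upv, Matrix.of_apply]
  rcases lt_trichotomy u v with h | h | h
  · rw [if_pos h, if_neg h.not_gt, sub_zero, cast_val]
  · subst h
    rw [sub_self, Int.cast_zero, hA.1]
  · rw [if_neg h.not_gt, if_pos h, zero_sub, Int.cast_neg, cast_val, hA.2 u v]

theorem dvd_upv [NeZero n] {A : Matrix (Fin N) (Fin N) (ZMod n)} (hA : Alt A) (x : ℤ) (u v : Fin N)
    (h : (x : ZMod n) = A u v) : (n : ℤ) ∣ x - dif (upv A) u v := by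
  rw [← ZMod.intCast_zmod_eq_zero_iff_dvd, Int.cast_sub, cast_dif_upv hA, h, sub_self]

/-- the reduction modulo `p` -/
def redn (p : ℕ) (A : altS (Fin N) (ZMod n)) : altS (Fin N) (ZMod p) :=
  ⟨red p (dif (upv A.1)), (alt_dif _).map' _⟩

theorem redn_add [NeZero n] {p : ℕ} (hp : p ∣ n) (A C : altS (Fin N) (ZMod n)) :
    redn p (A + C) = redn p A + redn p C := by
  refine Subtype.ext ?_
  ext u v
  change ((dif (upv (A + C).1) u v : ℤ) : ZMod p) =
    ((dif (upv A.1) u v : ℤ) : ZMod p) + ((dif (upv C.1) u v : ℤ) : ZMod p)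
  rw [← Int.cast_add, ← sub_eq_zero, ← Int.cast_sub, ZMod.intCast_zmod_eq_zero_iff_dvd]
  refine dvd_trans (Int.natCast_dvd_natCast.2 hp) ?_
  rw [← ZMod.intCast_zmod_eq_zero_iff_dvd, Int.cast_sub, Int.cast_add, cast_dif_upv (A + C).2,
    cast_dif_upv A.2, cast_dif_upv C.2, sub_eq_zero]
  rfl

/-- the reductions modulo all the prime divisors -/
def redAll (A : altS (Fin N) (ZMod n)) (p : n.primeFactors) : altS (Fin N) (ZMod p) := redn p A

theorem redAll_surj (hn : 0 < n) : Function.Surjective (redAll (N := N) (n := n)) := by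
  classical
  haveI : NeZero n := ⟨hn.ne'⟩
  intro B
  obtain ⟨x, hx⟩ := crt_fun n (fun p (q : Fin N × Fin N) =>
    if h : p ∈ n.primeFactors then (((B ⟨p, h⟩).1 q.1 q.2).val : ℤ) else 0)
  let w : Fin N → Fin N → ℤ := fun u v => if u < v then x (u, v) else 0
  refine ⟨⟨(dif w).map (Int.castRingHom (ZMod n)), (alt_dif _).map' _⟩, ?_⟩
  funext ⟨p, hp⟩
  have hpp := Nat.prime_of_mem_primeFactors hp
  haveI : NeZero p := ⟨hpp.ne_zero⟩
  have hpn := Nat.dvd_of_mem_primeFactors hp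
  refine Subtype.ext ?_
  ext u v
  have h1 : (n : ℤ) ∣ dif w u v - dif (upv ((dif w).map (Int.castRingHom (ZMod n)))) u v :=
    dvd_upv ((alt_dif _).map' _) _ u v (by simp)
  have h2 : ((dif (upv ((dif w).map (Int.castRingHom (ZMod n)))) u v : ℤ) : ZMod p) =
      ((dif w u v : ℤ) : ZMod p) := by
    symm
    rw [← sub_eq_zero, ← Int.cast_sub, ZMod.intCast_zmod_eq_zero_iff_dvd]
    exact (Int.natCast_dvd_natCast.2 hpn).trans h1
  have h3 : ∀ u v, u < v → ((x (u, v) : ℤ) : ZMod p) = (B ⟨p, hp⟩).1 u v := by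
    intro u v huv
    rw [hx p hpp hpn hn (u, v), dif_pos hp]
    exact cast_val _
  change ((dif (upv ((dif w).map (Int.castRingHom (ZMod n)))) u v : ℤ) : ZMod p) = (B ⟨p, hp⟩).1 u v
  rw [h2]
  simp only [dif, w, Matrix.of_apply]
  rcases lt_trichotomy u v with h | h | h
  · rw [if_pos h, if_neg h.not_gt, sub_zero, h3 u v h]
  · subst h
    rw [sub_self, Int.cast_zero, (B ⟨p, hp⟩).2.1]
  · rw [if_neg h.not_gt, if_pos h, zero_sub, Int.cast_neg, h3 v u h, (B ⟨p, hp⟩).2.2 u v]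

/-- the number of matrices with given properties modulo the prime divisors -/
theorem count_all (hn : 0 < n) (P : ∀ p : ℕ, altS (Fin N) (ZMod p) → Prop) (δ : ℕ → ℝ)
    (hδ0 : ∀ p ∈ n.primeFactors, 0 ≤ δ p)
    (hδ : ∀ p ∈ n.primeFactors, δ p * (Nat.card (altS (Fin N) (ZMod p)) : ℝ) ≤
      Nat.card {A : altS (Fin N) (ZMod p) // P p A}) :
    (∏ p ∈ n.primeFactors, δ p) * (Nat.card (altS (Fin N) (ZMod n)) : ℝ) ≤
      Nat.card {A : altS (Fin N) (ZMod n) // ∀ p ∈ n.primeFactors, P p (redn p A)} := by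
  classical
  haveI : NeZero n := ⟨hn.ne'⟩
  haveI : ∀ p : n.primeFactors, NeZero (p : ℕ) := fun p =>
    ⟨(Nat.prime_of_mem_primeFactors p.2).ne_zero⟩
  haveI : ∀ p : n.primeFactors, Finite (altS (Fin N) (ZMod p)) := fun p => inferInstance
  have hE : ∀ a b c : altS (Fin N) (ZMod n), redAll a = redAll b → redAll (a + c) = redAll (b + c) := by
    intro a b c h
    funext p
    have h1 := congrFun h p
    change redn p (a + c) = redn p (b + c)
    rw [redn_add (Nat.dvd_of_mem_primeFactors p.2), redn_add (Nat.dvd_of_mem_primeFactors p.2)]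
    congr 1
  have h1 := fib redAll hE (redAll_surj hn) (fun f => ∀ p : n.primeFactors, P (p : ℕ) (f p))
  have h2 := fib_all redAll hE (redAll_surj hn)
  have h3 : Nat.card {A : altS (Fin N) (ZMod n) // ∀ p ∈ n.primeFactors, P p (redn p A)} =
      Nat.card {A : altS (Fin N) (ZMod n) // ∀ p : n.primeFactors, P (p : ℕ) (redAll A p)} := by
    refine Nat.card_congr (Equiv.subtypeEquivRight fun A => ?_)
    constructor
    · intro h p
      exact h p p.2
    · intro h p hp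
      exact h ⟨p, hp⟩
  have h4 : Nat.card {f : ∀ p : n.primeFactors, altS (Fin N) (ZMod p) //
      ∀ p : n.primeFactors, P (p : ℕ) (f p)} =
      ∏ p : n.primeFactors, Nat.card {A : altS (Fin N) (ZMod p) // P (p : ℕ) A} := by
    rw [Nat.card_congr (Equiv.subtypePiEquivPi (p := fun (p : n.primeFactors) A => P (p : ℕ) A)), Nat.card_pi]
  rw [h3, h1, h2, h4, Nat.card_pi, Nat.cast_mul, Nat.cast_mul, Nat.cast_prod, Nat.cast_prod, ← mul_assoc]
  refine mul_le_mul_of_nonneg_right ?_ (Nat.cast_nonneg _)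
  rw [← Finset.prod_coe_sort n.primeFactors δ, ← Finset.prod_mul_distrib]
  exact Finset.prod_le_prod (fun p _ => mul_nonneg (hδ0 p p.2) (Nat.cast_nonneg _)) fun p _ => hδ p p.2

end red

section sym

variable {G B : Type*} [CommGroup G] [CommGroup B]

/-- symbols with trivial constants -/
structure Sy (s : G →* G →* B) (n : ℕ) (H : Subgroup G) : Prop where
  anti : ∀ a b, s a b = (s b a)⁻¹
  tors : ∀ a b, s a b ^ n = 1
  diag : ∀ a, s a a = 1
  const : ∀ a ∈ H, ∀ b, s a b = 1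

variable {s : G →* G →* B} {n : ℕ} {H : Subgroup G}

theorem Sy.low {I : Type*} (h : Sy s n H) (z : I → G) : low s H ⊥ z = ⊥ := by
  refine le_bot_iff.1 (sup_le le_rfl ?_)
  rw [Subgroup.closure_le]
  rintro γ ⟨a, ha, u, rfl⟩
  rw [h.const a ha]
  exact Subgroup.one_mem _

theorem Sy.Q_eq {I : Type*} [Fintype I] (h : Sy s n H) (z : I → G) (w w' : I → I → ℤ)
    (hw : ∀ u v, (n : ℤ) ∣ dif w u v - dif w' u v) : Q s z w = Q s z w' := by
  have h1 := Q_congr h.anti n h.tors 1 H H.one_mem (fun a => Or.inl (h.diag a)) ⊥ z w w' hw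
  rw [h.low, Subgroup.mem_bot, mul_inv_eq_one] at h1
  exact h1

theorem Sy.exQ {I : Type*} [Fintype I] [DecidableEq I] (h : Sy s n H) (z : I → G) (α : B)
    (hα : α ∈ Subgroup.closure {γ | ∃ a ∈ H ⊔ Subgroup.closure (Set.range z),
      ∃ b ∈ H ⊔ Subgroup.closure (Set.range z), γ = s a b}) : ∃ w : I → I → ℤ, α = Q s z w := by
  obtain ⟨w, hw⟩ := exists_Q h.anti H ⊥ (fun a ha b _ => by
    rw [h.const a ha]; exact Subgroup.one_mem _) z α hα
  rw [h.low, Subgroup.mem_bot, mul_inv_eq_one] at hw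
  exact ⟨w, hw⟩

theorem Q_mem {I : Type*} [Fintype I] (s : G →* G →* B) (H : Subgroup G) (z : I → G) (w : I → I → ℤ) :
    Q s z w ∈ Subgroup.closure {γ | ∃ a ∈ H ⊔ Subgroup.closure (Set.range z),
      ∃ b ∈ H ⊔ Subgroup.closure (Set.range z), γ = s a b} := by
  refine Subgroup.prod_mem _ fun q _ => Subgroup.zpow_mem _ (Subgroup.subset_closure ?_) _
  exact ⟨z q.1, (le_sup_right : Subgroup.closure (Set.range z) ≤ H ⊔ _)
    (Subgroup.subset_closure ⟨q.1, rfl⟩), z q.2, (le_sup_right : Subgroup.closure (Set.range z) ≤ H ⊔ _)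
    (Subgroup.subset_closure ⟨q.2, rfl⟩), rfl⟩

/-- the product of `g - 1` symbols -/
theorem Sy.good (h : Sy s n H) (hn : 0 < n) {g ρ : ℕ} (hg : 0 < g) (r₀ : Fin ρ) (z : Fin (2 * g) → G)
    (w : Fin ρ → Fin (2 * g) → Fin (2 * g) → ℤ) (hw : ∀ r, Q s z (w r) = 1) (w₁ : Fin (2 * g) → Fin (2 * g) → ℤ)
    (hgood : ∀ p : ℕ, p.Prime → p ∣ n → Gd p g ρ r₀ w (red p (dif w₁))) :
    ∃ x y : Fin (g - 1) → G, Q s z w₁ = ∏ i, s (x i) (y i) := by
  obtain ⟨c, e, f, hcef⟩ := all_good n g ρ hn hg r₀ w (dif w₁) (alt_dif w₁) hgood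
  refine ⟨fun i => mon z (e i), fun i => mon z (f i), ?_⟩
  have h1 := mod_low h.anti n h.tors 1 H H.one_mem (fun a => Or.inl (h.diag a)) ⊥ z
    (w₁ + ∑ i, c i • w i) (g - 1) e f (by
    intro u v
    have e1 : (w₁ + ∑ i, c i • w i) u v - (w₁ + ∑ i, c i • w i) v u =
        (dif w₁ + ∑ i, c i • dif (w i)) u v := by
      rw [← dif_comb]
      simp only [Pi.add_apply, Matrix.add_apply, Matrix.of_apply, dif]
      ring
    rw [e1]
    exact hcef u v)
  rw [h.low, Subgroup.mem_bot, mul_inv_eq_one, Q_add, Q_comb] at h1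
  rw [← h1]
  have h2 : ∏ i, Q s z (w i) ^ c i = 1 := Finset.prod_eq_one fun i _ => by rw [hw, _root_.one_zpow]
  rw [h2, mul_one]

/-- **The count.** -/
theorem Sy.count (h : Sy s n H) (hn : 0 < n) {g ρ : ℕ} (hg : 0 < g) (r₀ : Fin ρ) (z : Fin (2 * g) → G)
    (w : Fin ρ → Fin (2 * g) → Fin (2 * g) → ℤ) (hw : ∀ r, Q s z (w r) = 1) (Bs : Subgroup B)
    (hBs : Bs = Subgroup.closure {γ | ∃ a ∈ H ⊔ Subgroup.closure (Set.range z),
      ∃ b ∈ H ⊔ Subgroup.closure (Set.range z), γ = s a b}) (δ : ℕ → ℝ)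
    (hδ0 : ∀ p ∈ n.primeFactors, 0 ≤ δ p)
    (hδ : ∀ p ∈ n.primeFactors, δ p * (Nat.card (altS (Fin (2 * g)) (ZMod p)) : ℝ) ≤
      Nat.card {A : altS (Fin (2 * g)) (ZMod p) // Gd p g ρ r₀ w A.1}) :
    Finite Bs ∧ (∏ p ∈ n.primeFactors, δ p) * (Nat.card Bs : ℝ) ≤
      Nat.card {α : Bs // ∃ x y : Fin (g - 1) → G, (α : B) = ∏ i, s (x i) (y i)} := by
  haveI : NeZero n := ⟨hn.ne'⟩
  haveI : Finite (altS (Fin (2 * g)) (ZMod n)) := inferInstance
  let E : altS (Fin (2 * g)) (ZMod n) → Bs := fun A => ⟨Q s z (upv A.1), by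
    rw [hBs]; exact Q_mem s H z _⟩
  have hEadd : ∀ A C, (E (A + C) : B) = E A * E C := by
    intro A C
    change Q s z (upv (A + C).1) = Q s z (upv A.1) * Q s z (upv C.1)
    rw [← Q_add]
    refine h.Q_eq z _ _ fun u v => ?_
    have e1 : dif (upv A.1 + upv C.1) u v = dif (upv A.1) u v + dif (upv C.1) u v := by
      simp only [dif, Matrix.of_apply, Pi.add_apply]; ring
    rw [e1, ← ZMod.intCast_zmod_eq_zero_iff_dvd, Int.cast_sub, Int.cast_add, cast_dif_upv (A + C).2,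
      cast_dif_upv A.2, cast_dif_upv C.2, sub_eq_zero]
    rfl
  have hE : ∀ a b c, E a = E b → E (a + c) = E (b + c) := by
    intro a b c hab
    refine Subtype.ext ?_
    rw [hEadd, hEadd, hab]
  have hs : Function.Surjective E := by
    rintro ⟨α, hα⟩
    rw [hBs] at hα
    obtain ⟨w', rfl⟩ := h.exQ z α hα
    refine ⟨⟨(dif w').map (Int.castRingHom (ZMod n)), (alt_dif _).map' _⟩, Subtype.ext ?_⟩
    change Q s z (upv ((dif w').map (Int.castRingHom (ZMod n)))) = Q s z w'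
    refine (h.Q_eq z _ _ fun u v => ?_).symm
    exact dvd_upv ((alt_dif _).map' _) _ u v (by simp)
  have hfin : Finite Bs := Finite.of_surjective E hs
  refine ⟨hfin, ?_⟩
  have h1 := count_all (N := 2 * g) hn (fun p A => Gd p g ρ r₀ w A.1) δ hδ0 hδ
  let P : Bs → Prop := fun α => ∃ x y : Fin (g - 1) → G, (α : B) = ∏ i, s (x i) (y i)
  have h2 := fib E hE hs P
  have h3 := fib_all E hE hs
  have h4 : Nat.card {A : altS (Fin (2 * g)) (ZMod n) // ∀ p ∈ n.primeFactors,
      Gd p g ρ r₀ w (redn p A).1} ≤ Nat.card {A : altS (Fin (2 * g)) (ZMod n) // P (E A)} := by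
    refine Nat.card_le_card_of_injective (fun A => ⟨A.1, ?_⟩) ?_
    · exact h.good hn hg r₀ z w hw (upv A.1.1) fun p hp hpn =>
        A.2 p (Nat.mem_primeFactors.2 ⟨hp, hpn, hn.ne'⟩)
    · intro A A' hAA'
      exact Subtype.ext (congrArg (fun x => x.1) hAA')
  rw [h2] at h4
  have hK : 0 < Nat.card {y // E y = E 0} := by
    haveI : Nonempty {y // E y = E 0} := ⟨⟨0, rfl⟩⟩
    exact Nat.card_pos
  have h5 : (∏ p ∈ n.primeFactors, δ p) * ((Nat.card Bs : ℝ) * (Nat.card {y // E y = E 0} : ℝ)) ≤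
      (Nat.card {α : Bs // P α} : ℝ) * (Nat.card {y // E y = E 0} : ℝ) := by
    have h6 : (Nat.card (altS (Fin (2 * g)) (ZMod n)) : ℝ) =
        (Nat.card Bs : ℝ) * (Nat.card {y // E y = E 0} : ℝ) := by
      rw [h3]; push_cast; rfl
    rw [← h6]
    refine h1.trans ?_
    exact_mod_cast h4
  have hK' : (0 : ℝ) < (Nat.card {y // E y = E 0} : ℝ) := by exact_mod_cast hK
  rw [← mul_assoc] at h5
  exact le_of_mul_le_mul_right h5 hK'

end sym

end Pool.Agent.W5h93.AP
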