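import Pool.Agent.W5h93.AP.Hens

/-! All moduli, and the count of the good classes. -/

set_option autoImplicit false
set_option linter.all false

open Matrix

noncomputable section

namespace Pool.Agent.W5h93.AP

open Pool.Agent.Y109.PI Pool.Agent.W5h93.PI

/-- simple kernel vectors over a commutative ring -/
def Smp {R I : Type*} [CommRing R] [Fintype I] (ω A : Matrix I I R) (v : I → R) : Prop :=
  v ≠ 0 ∧ A *ᵥ v = 0 ∧ ∀ w, A *ᵥ w = 0 → v ⬝ᵥ (ω *ᵥ w) = 0 → ∃ c : R, w = c • v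

/-- the good alternating matrices modulo `p` -/
def Gd (p g ρ : ℕ) (r₀ : Fin ρ) (w : Fin ρ → Fin (2 * g) → Fin (2 * g) → ℤ)
    (A : Matrix (Fin (2 * g)) (Fin (2 * g)) (ZMod p)) : Prop :=
  ∃ (c : Fin ρ → ZMod p) (v : Fin (2 * g) → ZMod p),
    Smp (red p (dif (w r₀))) (A + ∑ r, c r • red p (dif (w r))) v

/-- a degenerate translate modulo a prime power -/
theorem pow_good (p k g ρ : ℕ) (hp : p.Prime) (hg : 0 < g) (r₀ : Fin ρ)
    (w : Fin ρ → Fin (2 * g) → Fin (2 * g) → ℤ) (b : Matrix (Fin (2 * g)) (Fin (2 * g)) ℤ) (hb : Alt b)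
    (h : Gd p g ρ r₀ w (red p b)) :
    ∃ (c : Fin ρ → ℤ) (e f : Fin (g - 1) × Fin (2 * g) → ℤ), ∀ u v,
      (((b + ∑ i, c i • dif (w i)) u v : ℤ) : ZMod (p ^ k)) =
        ((∑ i, wdg (fun u => e (i, u)) (fun u => f (i, u))) u v : ℤ) := by
  haveI : Fact p.Prime := ⟨hp⟩
  haveI : NeZero p := ⟨hp.ne_zero⟩
  haveI : NeZero (p ^ k) := ⟨(pow_pos hp.pos _).ne'⟩
  obtain ⟨c₀, v, hv⟩ := h
  have hv' : Simple (red p (dif (w r₀))) (red p b + ∑ r, c₀ r • red p (dif (w r))) v := hv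
  let C : Fin ρ → ℤ := fun r => ((c₀ r).val : ℤ)
  let b' : Matrix (Fin (2 * g)) (Fin (2 * g)) ℤ := b + ∑ r, C r • dif (w r)
  have hb' : Alt b' := hb.add (Alt.sum _ _ fun i => (alt_dif (w i)).smul _)
  have hred : red p b' = red p b + ∑ r, c₀ r • red p (dif (w r)) := by
    rw [red_add_sum]
    congr 1
    refine Finset.sum_congr rfl fun r _ => ?_
    congr 1
    exact vcast _
  rw [← hred, ← pad_red, ← pad_red] at hv'
  obtain ⟨t, ht⟩ := hens g hg (pad p b') (pad p (dif (w r₀))) (hb'.map' _) ((alt_dif _).map' _) v hv'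
  obtain ⟨X, Y, hXY⟩ := sing_decomp' ℚ_[p] (IsFractionRing.injective ℤ_[p] ℚ_[p]) g hg (by simp)
    (pad p b' + t • pad p (dif (w r₀))) ((hb'.map' _).add (((alt_dif _).map' _).smul _)) ht
  let ψ := PadicInt.toZModPow (p := p) k
  have hval : ∀ z : ℤ_[p], (((ψ z).val : ℤ) : ZMod (p ^ k)) = ψ z := by
    intro z
    rw [Int.cast_natCast]
    exact ZMod.natCast_zmod_val _
  refine ⟨fun r => C r + if r = r₀ then ((ψ t).val : ℤ) else 0, fun q => ((ψ (X q.1 q.2)).val : ℤ),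
    fun q => ((ψ (Y q.1 q.2)).val : ℤ), fun u v => ?_⟩
  have h1 := congrArg ψ (congrFun (congrFun hXY u) v)
  have h3 : ψ ((pad p b' + t • pad p (dif (w r₀))) u v) =
      (((b + ∑ r, (C r + if r = r₀ then ((ψ t).val : ℤ) else 0) • dif (w r)) u v : ℤ) : ZMod (p ^ k)) := by
    have e1 : (b + ∑ r, (C r + if r = r₀ then ((ψ t).val : ℤ) else 0) • dif (w r)) u v =
        b' u v + ((ψ t).val : ℤ) * dif (w r₀) u v := by
      simp only [b', Matrix.add_apply, Matrix.sum_apply, Matrix.smul_apply, smul_eq_mul, add_mul,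
        Finset.sum_add_distrib, ite_mul, zero_mul, Finset.sum_ite_eq', Finset.mem_univ, if_true]
      ring
    rw [e1]
    simp only [Matrix.add_apply, Matrix.smul_apply, smul_eq_mul, map_add, map_mul, pad,
      Matrix.map_apply, eq_intCast, map_intCast, Int.cast_add, Int.cast_mul, hval]
  have h4 : ψ ((∑ i, wdg (X i) (Y i)) u v) =
      (((∑ i, wdg (fun u => ((ψ (X i u)).val : ℤ)) (fun u => ((ψ (Y i u)).val : ℤ)) :
        Matrix (Fin (2 * g)) (Fin (2 * g)) ℤ) u v : ℤ) : ZMod (p ^ k)) := by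
    simp only [Matrix.sum_apply, map_sum, wdg, Matrix.of_apply, map_sub, map_mul, Int.cast_sum,
      Int.cast_sub, Int.cast_mul, hval]
  rw [h3, h4] at h1
  exact h1

/-- a degenerate translate modulo an arbitrary number -/
theorem all_good (n g ρ : ℕ) (hn : 0 < n) (hg : 0 < g) (r₀ : Fin ρ)
    (w : Fin ρ → Fin (2 * g) → Fin (2 * g) → ℤ) (b : Matrix (Fin (2 * g)) (Fin (2 * g)) ℤ) (hb : Alt b)
    (h : ∀ p : ℕ, p.Prime → p ∣ n → Gd p g ρ r₀ w (red p b)) :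
    ∃ (c : Fin ρ → ℤ) (e f : Fin (g - 1) → Fin (2 * g) → ℤ), ∀ u v,
      (n : ℤ) ∣ (b + ∑ i, c i • dif (w i)) u v - (∑ i, wdg (e i) (f i)) u v := by
  have h1 : ∀ p : ℕ, ∃ (c : Fin ρ → ℤ) (e f : Fin (g - 1) × Fin (2 * g) → ℤ), p.Prime → p ∣ n → ∀ u v,
      (((b + ∑ i, c i • dif (w i)) u v : ℤ) : ZMod (p ^ n.factorization p)) =
        ((∑ i, wdg (fun u => e (i, u)) (fun u => f (i, u))) u v : ℤ) := by
    intro p
    by_cases hp : p.Prime ∧ p ∣ n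
    · obtain ⟨c, e, f, hc⟩ := pow_good p (n.factorization p) g ρ hp.1 hg r₀ w b hb (h p hp.1 hp.2)
      exact ⟨c, e, f, fun _ _ => hc⟩
    · exact ⟨0, 0, 0, fun a b => absurd ⟨a, b⟩ hp⟩
  choose a e f haef using h1
  obtain ⟨x, hx⟩ := crt_pow_fun n hn a
  obtain ⟨y, hy⟩ := crt_pow_fun n hn e
  obtain ⟨y', hy'⟩ := crt_pow_fun n hn f
  refine ⟨x, fun i u => y (i, u), fun i u => y' (i, u), fun u v => ?_⟩
  have key : ∀ p : ℕ, p.Prime → p ∣ n → ((p ^ n.factorization p : ℕ) : ℤ) ∣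
      (b + ∑ i, x i • dif (w i)) u v - (∑ i, wdg (fun u => y (i, u)) (fun u => y' (i, u))) u v := by
    intro p hp hpn
    rw [← ZMod.intCast_zmod_eq_zero_iff_dvd, Int.cast_sub, sub_eq_zero]
    have h2 : (((b + ∑ i, x i • dif (w i)) u v : ℤ) : ZMod (p ^ n.factorization p)) =
        (((b + ∑ i, a p i • dif (w i)) u v : ℤ) : ZMod (p ^ n.factorization p)) := by
      simp only [Matrix.add_apply, Matrix.sum_apply, Matrix.smul_apply, smul_eq_mul, Int.cast_add,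
        Int.cast_sum, Int.cast_mul, hx p hp hpn]
    rw [h2, haef p hp hpn]
    simp only [Matrix.sum_apply, wdg, Matrix.of_apply, Int.cast_sum, Int.cast_sub, Int.cast_mul,
      hy p hp hpn, hy' p hp hpn]
  have h3 : n ∣ ((b + ∑ i, x i • dif (w i)) u v -
      (∑ i, wdg (fun u => y (i, u)) (fun u => y' (i, u))) u v).natAbs := by
    refine (Nat.dvd_iff_prime_pow_dvd_dvd _ _).2 fun p j hp hj => ?_
    rcases Nat.eq_zero_or_pos j with h0 | h0
    · rw [h0, pow_zero]; exact one_dvd _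
    · have hpn : p ∣ n := (dvd_pow_self p h0.ne').trans hj
      have h4 := Int.natCast_dvd.1 (key p hp hpn)
      exact (pow_dvd_pow p ((hp.pow_dvd_iff_le_factorization hn.ne').1 hj)).trans h4
  exact Int.natCast_dvd.2 h3

section num

theorem e_ge {q : ℝ} (hq : 5 ≤ q) : (q ^ 2 - q - 4) / q ≤ q - 1 / q - (q + 1) / (q - 1) := by
  have h0 : q ≠ 0 := by linarith
  have h1 : q - 1 ≠ 0 := by linarith
  have h2 : q - 1 / q - (q + 1) / (q - 1) = (q ^ 2 - q - 4) / q + (q - 3) / (q * (q - 1)) := by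
    field_simp
    ring
  rw [h2]
  have h3 : 0 ≤ (q - 3) / (q * (q - 1)) := div_nonneg (by linarith) (mul_nonneg (by linarith) (by linarith))
  linarith

theorem e_nonneg {q : ℝ} (hq : 5 ≤ q) : 0 ≤ (q ^ 2 - q - 4) / q :=
  div_nonneg (by nlinarith) (by linarith)

theorem num_gen {q M δ : ℝ} (hq : 5 ≤ q) (hM : 0 ≤ M)
    (h : δ * (q ^ 3 + q ^ 2 + (M - 1) * (q ^ 2 + q + 1)) * q ^ 2 ≤ M * (q ^ 2 - q - 4) ^ 2) :
    δ * (q ^ 3 + q ^ 2 + (M - 1) * (q ^ 2 + q + 1)) ≤ M * (q - 1 / q - (q + 1) / (q - 1)) ^ 2 := by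
  have h0 : 0 < q := by linarith
  have h1 := pow_le_pow_left₀ (e_nonneg hq) (e_ge hq) 2
  refine le_trans ?_ (mul_le_mul_of_nonneg_left h1 hM)
  rw [div_pow, ← mul_div_assoc, le_div_iff₀ (by positivity)]
  exact h

theorem num_two {q M : ℝ} (hq : 5 ≤ q) (hM : q ^ 2 ≤ M) :
    (1 - 4 / q) * (q ^ 3 + q ^ 2 + (M - 1) * (q ^ 2 + q + 1)) ≤
      M * (q - 1 / q - (q + 1) / (q - 1)) ^ 2 := by
  have h0 : 0 < q := by linarith
  have hM0 : 0 ≤ M := le_trans (by positivity) hM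
  refine num_gen hq hM0 ?_
  have h1 : (1 - 4 / q) * (q ^ 3 + q ^ 2 + (M - 1) * (q ^ 2 + q + 1)) * q ^ 2 =
      (q ^ 2 - 4 * q) * (q ^ 3 + q ^ 2 + (M - 1) * (q ^ 2 + q + 1)) := by
    field_simp
  rw [h1]
  have h2 : 0 ≤ q ^ 3 - 4 * q ^ 2 + 12 * q + 16 := by
    have : 0 ≤ q ^ 2 * (q - 4) := mul_nonneg (by positivity) (by linarith)
    nlinarith
  have h3 := mul_nonneg h2 (sub_nonneg.2 hM)
  have h4 : 0 ≤ 13 * q ^ 3 + 13 * q ^ 2 - 4 * q := by
    have : 0 ≤ q * (13 * q - 4) := mul_nonneg h0.le (by linarith)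
    have : 0 ≤ q ^ 3 := by positivity
    nlinarith
  nlinarith

theorem num_one {q M : ℝ} (hq : 5 ≤ q) (hM : q ≤ M) :
    ((1 - 4 / q) / 2) * (q ^ 3 + q ^ 2 + (M - 1) * (q ^ 2 + q + 1)) ≤
      M * (q - 1 / q - (q + 1) / (q - 1)) ^ 2 := by
  have h0 : 0 < q := by linarith
  have hM0 : 0 ≤ M := le_trans (by positivity) hM
  refine num_gen hq hM0 ?_
  have h1 : ((1 - 4 / q) / 2) * (q ^ 3 + q ^ 2 + (M - 1) * (q ^ 2 + q + 1)) * q ^ 2 =
      (q ^ 2 - 4 * q) * (q ^ 3 + q ^ 2 + (M - 1) * (q ^ 2 + q + 1)) / 2 := by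
    field_simp
  rw [h1, div_le_iff₀ two_pos]
  have h2 : 0 ≤ q ^ 4 - q ^ 3 - 11 * q ^ 2 + 20 * q + 32 := by
    have : 0 ≤ q ^ 2 * (q ^ 2 - q - 11) := mul_nonneg (by positivity) (by nlinarith)
    nlinarith
  have h3 := mul_nonneg h2 (sub_nonneg.2 hM)
  have h4 : 0 ≤ 3 * q ^ 4 - 10 * q ^ 3 + 17 * q ^ 2 + 28 * q := by
    have : 0 ≤ q ^ 2 * (3 * q ^ 2 - 10 * q + 17) := mul_nonneg (by positivity) (by nlinarith)
    nlinarith
  nlinarith

end num

section prime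

variable {p g ρ : ℕ} [hp : Fact p.Prime]

/-- the family of the translations -/
def famW (w : Fin ρ → Fin (2 * g) → Fin (2 * g) → ℤ) (c : Fin ρ → ZMod p) : altS (Fin (2 * g)) (ZMod p) :=
  ⟨∑ r, c r • red p (dif (w r)), Alt.sum _ _ fun r => ((alt_dif (w r)).map' _).smul _⟩

theorem prime_count (hg : 0 < g) (r₀ : Fin ρ) (w : Fin ρ → Fin (2 * g) → Fin (2 * g) → ℤ) (h5 : 5 ≤ p)
    (hind : ∀ c : Fin ρ → ZMod p, ∑ r, c r • red p (dif (w r)) = 0 → c = 0) (δ : ℝ)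
    (hδ : δ * ((p : ℝ) ^ 3 + (p : ℝ) ^ 2 + ((p : ℝ) ^ ρ - 1) * ((p : ℝ) ^ 2 + p + 1)) ≤
      (p : ℝ) ^ ρ * ((p : ℝ) - 1 / p - ((p : ℝ) + 1) / (p - 1)) ^ 2) :
    δ * (Nat.card (altS (Fin (2 * g)) (ZMod p)) : ℝ) ≤
      Nat.card {A : altS (Fin (2 * g)) (ZMod p) // Gd p g ρ r₀ w A.1} := by
  classical
  haveI : NeZero p := ⟨hp.out.ne_zero⟩
  have hq : q (ZMod p) = p := by
    unfold q
    rw [ZMod.card]
  have hM : (Nat.card (Fin ρ → ZMod p) : ℝ) = (p : ℝ) ^ ρ := by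
    rw [Nat.card_eq_fintype_card, Fintype.card_fun, ZMod.card, Fintype.card_fin]
    push_cast
    rfl
  have hp5 : (5 : ℝ) ≤ p := by exact_mod_cast h5
  have hW : Function.Injective (famW (p := p) w) := by
    intro c c' h
    have h1 : ∑ r, c r • red p (dif (w r)) = ∑ r, c' r • red p (dif (w r)) := congrArg Subtype.val h
    have h2 := hind (c - c') (by
      simp only [Pi.sub_apply, sub_smul, Finset.sum_sub_distrib]
      rw [h1, sub_self])
    exact sub_eq_zero.1 h2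
  have h0 : red p (dif (w r₀)) ≠ 0 := by
    intro h
    have h1 := hind (Pi.single r₀ 1) (by
      rw [Finset.sum_eq_single r₀]
      · rw [h, smul_zero]
      · intro r _ hr
        rw [Pi.single_eq_of_ne hr, zero_smul]
      · intro h; exact absurd (Finset.mem_univ _) h)
    have h2 := congrFun h1 r₀
    rw [Pi.single_eq_same] at h2
    exact one_ne_zero h2
  have he : 0 ≤ q (ZMod p) - 1 / q (ZMod p) - (q (ZMod p) + 1) / (q (ZMod p) - 1) := by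
    rw [hq]
    exact (e_nonneg hp5).trans (e_ge hp5)
  have hgood := good_ge_nat (I := Fin (2 * g)) (F := ZMod p) (W := famW w) (by
    rw [Fintype.card_fin]; omega) hW (red p (dif (w r₀))) ((alt_dif _).map' _) h0 he
  rw [hq, hM] at hgood
  set D : ℝ := (p : ℝ) ^ 3 + (p : ℝ) ^ 2 + ((p : ℝ) ^ ρ - 1) * ((p : ℝ) ^ 2 + p + 1) with hD
  have hDpos : 0 < D := by
    have h1 : (1 : ℝ) ≤ (p : ℝ) ^ ρ := one_le_pow₀ (by linarith)
    have h2 : 0 ≤ ((p : ℝ) ^ ρ - 1) * ((p : ℝ) ^ 2 + p + 1) := mul_nonneg (by linarith) (by positivity)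
    have h3 : 0 < (p : ℝ) ^ 3 := by positivity
    have h4 : 0 < (p : ℝ) ^ 2 := by positivity
    linarith
  have hT : (0 : ℝ) ≤ (Nat.card (altS (Fin (2 * g)) (ZMod p)) : ℝ) := Nat.cast_nonneg _
  have hgood' : (p : ℝ) ^ ρ * ((p : ℝ) - 1 / p - ((p : ℝ) + 1) / (p - 1)) ^ 2 *
      (Nat.card (altS (Fin (2 * g)) (ZMod p)) : ℝ) ≤
      (Nat.card {A : altS (Fin (2 * g)) (ZMod p) // Gd p g ρ r₀ w A.1} : ℝ) * D := hgood
  generalize (Nat.card {A : altS (Fin (2 * g)) (ZMod p) // Gd p g ρ r₀ w A.1} : ℝ) = x at hgood' ⊢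
  generalize (Nat.card (altS (Fin (2 * g)) (ZMod p)) : ℝ) = t at hgood' hT ⊢
  have h1 := mul_le_mul_of_nonneg_right hδ hT
  have h2 : D * (δ * t) ≤ D * x := by
    calc D * (δ * t) = δ * D * t := by ring
      _ ≤ _ := h1
      _ ≤ _ := hgood'
      _ = _ := mul_comm _ _
  exact le_of_mul_le_mul_left h2 hDpos

end prime

end Pool.Agent.W5h93.AP
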