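import Pool.Agent.W5h93.AP.Mom
import Pool.Agent.W5h93.PI.All

/-! Simple zeros of the Pfaffian and Hensel's lemma. -/

set_option autoImplicit false
set_option linter.all false

open Matrix Polynomial

noncomputable section

namespace Pool.Agent.W5h93.AP

open Pool.Agent.Y109.PI Pool.Agent.W5h93.PI Pool.Agent.Helper929

theorem alt_vecMul {R I : Type*} [CommRing R] [Fintype I] {B : Matrix I I R} (hB : Alt B) (v : I → R) :
    v ᵥ* B = -(B *ᵥ v) := by
  funext m
  simp only [vecMul, mulVec, dotProduct, Pi.neg_apply]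
  rw [← Finset.sum_neg_distrib]
  refine Finset.sum_congr rfl fun l _ => ?_
  rw [hB.2 l m]; ring

section

variable {F I : Type} [Field F] [Fintype F] [Fintype I] [DecidableEq I]

/-- the pencil -/
def pen {R : Type} [CommRing R] (B W : Matrix I I R) : Matrix I I R[X] :=
  Matrix.of fun l m => C (B l m) + X * C (W l m)

theorem pen_apply {R : Type} [CommRing R] (B W : Matrix I I R) (l m : I) :
    pen B W l m = C (B l m) + X * C (W l m) := rfl

/-- a simple kernel vector gives a zero of the determinant of order exactly two -/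
theorem det_simple {B W : Matrix I I F} (hB : Alt B) (hW : Alt W) {v w : I → F} (hs : Simple W B v)
    (hw : B *ᵥ w = 0) (hwc : ∀ c : F, w ≠ c • v) : ¬ (X : F[X]) ^ 3 ∣ (pen B W).det := by
  intro hdvd
  obtain ⟨hv0, hv, hker⟩ := hs
  obtain ⟨i, j, hij, hδ⟩ := exists_minor hv0 hwc
  let P : Matrix I I F := Matrix.of fun l m => if l = i then v m else if l = j then w m else
    if l = m then 1 else 0
  let Qm : Matrix I I F[X] := Matrix.of fun l m => if l = i then C ((v ᵥ* W) m) else
    if l = j then C ((w ᵥ* W) m) else pen B W l m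
  let Dg : Matrix I I F[X] := Matrix.diagonal fun l => if l = i ∨ l = j then X else 1
  have two : ∀ a b : F, v i * a + v j * b = 0 → w i * a + w j * b = 0 → a = 0 ∧ b = 0 := by
    intro a b h1 h2
    constructor
    · have : a * (v i * w j - v j * w i) = 0 := by linear_combination w j * h1 - v j * h2
      exact (mul_eq_zero.1 this).resolve_right hδ
    · have : b * (v i * w j - v j * w i) = 0 := by linear_combination v i * h2 - w i * h1
      exact (mul_eq_zero.1 this).resolve_right hδ
  have hsum : ∀ (x y : I → F), (∀ l, l ≠ i → l ≠ j → y l = 0) → x ⬝ᵥ y = x i * y i + x j * y j := by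
    intro x y hy
    simp only [dotProduct]
    rw [← Finset.sum_subset (Finset.subset_univ {i, j}), Finset.sum_pair hij]
    intro l _ hl
    simp only [Finset.mem_insert, Finset.mem_singleton, not_or] at hl
    rw [hy l hl.1 hl.2, mul_zero]
  have hPdet : P.det ≠ 0 := by
    intro h
    obtain ⟨y, hy0, hy⟩ := Matrix.exists_mulVec_eq_zero_iff.2 h
    apply hy0
    have h1 : ∀ l, l ≠ i → l ≠ j → y l = 0 := by
      intro l hli hlj
      have h2 := congrFun hy l
      simp only [P, mulVec, dotProduct, Matrix.of_apply, if_neg hli, if_neg hlj, Pi.zero_apply,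
        ite_mul, one_mul, zero_mul, Finset.sum_ite_eq, Finset.mem_univ, if_true] at h2
      exact h2
    have h2 : v ⬝ᵥ y = 0 := by
      have h3 := congrFun hy i
      simp only [P, mulVec, dotProduct, Matrix.of_apply, if_true, Pi.zero_apply] at h3
      exact h3
    have h3 : w ⬝ᵥ y = 0 := by
      have h3 := congrFun hy j
      simp only [P, mulVec, dotProduct, Matrix.of_apply, if_neg hij.symm, if_true, Pi.zero_apply] at h3
      exact h3
    rw [hsum v y h1] at h2
    rw [hsum w y h1] at h3
    obtain ⟨ha, hb⟩ := two _ _ h2 h3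
    funext l
    by_cases hli : l = i
    · rw [hli]; exact ha
    · by_cases hlj : l = j
      · rw [hlj]; exact hb
      · exact h1 l hli hlj
  have hrow : ∀ x : I → F, B *ᵥ x = 0 → ∀ m, ∑ k, C (x k) * pen B W k m = X * C ((x ᵥ* W) m) := by
    intro x hx m
    have h1 : (x ᵥ* B) m = 0 := by rw [alt_vecMul hB, hx, neg_zero]; rfl
    have h2 : ∑ k, C (x k) * pen B W k m = C ((x ᵥ* B) m) + X * C ((x ᵥ* W) m) := by
      simp only [vecMul, dotProduct, map_sum, map_mul, pen_apply, Finset.mul_sum]
      rw [← Finset.sum_add_distrib]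
      exact Finset.sum_congr rfl fun k _ => by ring
    rw [h2, h1, C_0, zero_add]
  have hfac : P.map C * pen B W = Dg * Qm := by
    ext1 l m
    rw [Matrix.diagonal_mul, Matrix.mul_apply]
    by_cases hli : l = i
    · simp only [P, Qm, Matrix.map_apply, Matrix.of_apply, hli, if_true, true_or]
      exact hrow v hv m
    · by_cases hlj : l = j
      · simp only [P, Qm, Matrix.map_apply, Matrix.of_apply, hlj, if_neg hij.symm, if_true, or_true]
        exact hrow w hw m
      · have h1 : ∀ k, C (P l k) * pen B W k m = if l = k then pen B W k m else 0 := by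
          intro k
          simp only [P, Matrix.of_apply, if_neg hli, if_neg hlj]
          split_ifs
          · rw [C_1, one_mul]
          · rw [C_0, zero_mul]
        simp only [Matrix.map_apply, h1, Finset.sum_ite_eq, Finset.mem_univ, if_true]
        simp only [Qm, Matrix.of_apply, hli, hlj, or_self, if_false, one_mul]
  have hDg : Dg.det = X ^ 2 := by
    rw [Matrix.det_diagonal, ← Finset.prod_filter]
    have : (Finset.univ.filter fun l => l = i ∨ l = j) = {i, j} := by
      ext l
      simp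
    rw [this, Finset.prod_pair hij, pow_two]
  have hdet := congrArg Matrix.det hfac
  rw [Matrix.det_mul, Matrix.det_mul, hDg] at hdet
  have hPm : (P.map C).det = C P.det := by
    rw [RingHom.map_det]; rfl
  rw [hPm] at hdet
  have h1 : (X : F[X]) ^ 2 * X ∣ X ^ 2 * Qm.det := by
    rw [← hdet, ← pow_succ]
    exact hdvd.mul_left _
  have h2 : (X : F[X]) ∣ Qm.det := (mul_dvd_mul_iff_left (pow_ne_zero 2 X_ne_zero)).1 h1
  rw [X_dvd_iff, coeff_zero_eq_eval_zero] at h2
  have h3 : (Qm.map (evalRingHom (0 : F))).det = 0 := by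
    have := RingHom.map_det (evalRingHom (0 : F)) Qm
    rw [coe_evalRingHom, h2] at this
    exact this.symm
  obtain ⟨y, hy0, hy⟩ := Matrix.exists_mulVec_eq_zero_iff.2 h3
  have hyi : (v ᵥ* W) ⬝ᵥ y = 0 := by
    have h4 := congrFun hy i
    simp only [Qm, mulVec, Matrix.map_apply, Matrix.of_apply, if_true, coe_evalRingHom, eval_C,
      Pi.zero_apply] at h4
    exact h4
  have hyj : (w ᵥ* W) ⬝ᵥ y = 0 := by
    have h4 := congrFun hy j
    simp only [Qm, mulVec, Matrix.map_apply, Matrix.of_apply, if_neg hij.symm, if_true,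
      coe_evalRingHom, eval_C, Pi.zero_apply] at h4
    exact h4
  have hyl : ∀ l, l ≠ i → l ≠ j → (B *ᵥ y) l = 0 := by
    intro l hli hlj
    have h4 := congrFun hy l
    simp only [Qm, mulVec, Matrix.map_apply, Matrix.of_apply, if_neg hli, if_neg hlj, pen_apply,
      coe_evalRingHom, eval_add, eval_mul, eval_C, eval_X, zero_mul, add_zero, Pi.zero_apply] at h4
    exact h4
  have hBy : B *ᵥ y = 0 := by
    have h4 : v ⬝ᵥ (B *ᵥ y) = 0 := by rw [alt_dot hB, hv, dotProduct_zero, neg_zero]
    have h5 : w ⬝ᵥ (B *ᵥ y) = 0 := by rw [alt_dot hB, hw, dotProduct_zero, neg_zero]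
    rw [hsum v _ hyl] at h4
    rw [hsum w _ hyl] at h5
    obtain ⟨ha, hb⟩ := two _ _ h4 h5
    funext l
    by_cases hli : l = i
    · rw [hli]; exact ha
    · by_cases hlj : l = j
      · rw [hlj]; exact hb
      · exact hyl l hli hlj
  have hvy : v ⬝ᵥ (W *ᵥ y) = 0 := by rw [Matrix.dotProduct_mulVec]; exact hyi
  obtain ⟨c, hc⟩ := hker y hBy hvy
  have hc0 : c ≠ 0 := by
    rintro rfl
    apply hy0
    rw [hc, zero_smul]
  have hwv : w ⬝ᵥ (W *ᵥ v) = 0 := by
    have h4 : w ⬝ᵥ (W *ᵥ y) = 0 := by rw [Matrix.dotProduct_mulVec]; exact hyj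
    rw [hc, mulVec_smul, dotProduct_smul, smul_eq_mul] at h4
    exact (mul_eq_zero.1 h4).resolve_left hc0
  have hvw : v ⬝ᵥ (W *ᵥ w) = 0 := by rw [alt_dot hW, hwv, neg_zero]
  obtain ⟨d, hd⟩ := hker w hw hvw
  exact hwc d hd

end

section

variable {p : ℕ} [hp : Fact p.Prime]

/-- a second vector in the kernel -/
theorem exists_second (g : ℕ) (hg : 0 < g) {I : Type} [Fintype I] [DecidableEq I]
    (hI : Fintype.card I = 2 * g) (B : Matrix I I (ZMod p)) (hB : Alt B) (v : I → ZMod p) (hv0 : v ≠ 0)
    (hv : B *ᵥ v = 0) : ∃ w, B *ᵥ w = 0 ∧ ∀ c : ZMod p, w ≠ c • v := by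
  have hdet : B.det = 0 := Matrix.exists_mulVec_eq_zero_iff.1 ⟨v, hv0, hv⟩
  obtain ⟨e, f, hef⟩ := sing_decomp g hg hI B hB hdet
  let L : (I → ZMod p) →ₗ[ZMod p] (Fin (g - 1) → ZMod p) × (Fin (g - 1) → ZMod p) :=
    LinearMap.prod (Matrix.mulVecLin (Matrix.of e)) (Matrix.mulVecLin (Matrix.of f))
  by_contra hcon
  push Not at hcon
  have hker : LinearMap.ker L ≤ Submodule.span (ZMod p) {v} := by
    intro w hw
    rw [LinearMap.mem_ker] at hw
    have h1 : ∀ i, e i ⬝ᵥ w = 0 := fun i => congrFun (congrArg Prod.fst hw) i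
    have h2 : ∀ i, f i ⬝ᵥ w = 0 := fun i => congrFun (congrArg Prod.snd hw) i
    have h3 : B *ᵥ w = 0 := by
      have h4 : B.mulVecLin w = 0 := by
        have h5 : B.mulVecLin = ∑ i, (wdg (e i) (f i)).mulVecLin := by
          rw [hef]
          ext x k
          simp only [Matrix.mulVecLin_apply, LinearMap.coe_comp, Function.comp_apply,
            LinearMap.sum_apply, Finset.sum_apply, mulVec, dotProduct, Matrix.sum_apply, Finset.sum_mul]
          rw [Finset.sum_comm]
        rw [h5, LinearMap.sum_apply]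
        refine Finset.sum_eq_zero fun i _ => ?_
        rw [Matrix.mulVecLin_apply, wdg_mulVec, h1, h2, zero_smul, zero_smul, sub_zero]
      exact h4
    obtain ⟨c, hc⟩ := hcon w h3
    rw [hc]
    exact Submodule.smul_mem _ _ (Submodule.mem_span_singleton_self v)
  have h1 := Submodule.finrank_mono hker
  have h2 : Module.finrank (ZMod p) (Submodule.span (ZMod p) {v}) = 1 := finrank_span_singleton hv0
  have h3 := LinearMap.finrank_range_add_finrank_ker L
  have h4 := Submodule.finrank_le (LinearMap.range L)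
  rw [Module.finrank_prod, Module.finrank_fintype_fun_eq_card, Fintype.card_fin] at h4
  rw [Module.finrank_fintype_fun_eq_card, hI] at h3
  omega

theorem pf_sq_poly {n : ℕ} (A : Matrix (Fin n) (Fin n) ℤ_[p][X]) (hA : ∀ i j, A i j = - A j i) :
    pf n A ^ 2 = A.det := by
  let φ := algebraMap ℤ_[p][X] (FractionRing ℤ_[p][X])
  have hinj : Function.Injective φ := IsFractionRing.injective _ _
  haveI : CharZero ℤ_[p][X] := inferInstance
  haveI : CharZero (FractionRing ℤ_[p][X]) := charZero_of_injective_algebraMap hinj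
  have h := pf_sq n (A.map φ) (by
    intro i j
    simp only [Matrix.map_apply]
    rw [hA i j]
    simp)
  rw [← pf_map, ← RingHom.map_pow] at h
  have h2 : (A.map φ).det = φ A.det := by
    rw [RingHom.map_det]
    rfl
  rw [h2] at h
  exact hinj h

theorem toZMod_eq_zero (x : ℤ_[p]) : PadicInt.toZMod (p := p) x = 0 ↔ ‖x‖ < 1 := by
  rw [← PadicInt.mem_nonunits, ← RingHom.mem_ker, PadicInt.ker_toZMod]
  rfl

/-- **Hensel's lemma for the Pfaffian.** -/
theorem hens (g : ℕ) (hg : 0 < g) (B W : Matrix (Fin (2 * g)) (Fin (2 * g)) ℤ_[p]) (hB : Alt B)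
    (hW : Alt W) (v : Fin (2 * g) → ZMod p)
    (hs : Simple (W.map (PadicInt.toZMod (p := p))) (B.map (PadicInt.toZMod (p := p))) v) :
    ∃ t : ℤ_[p], (B + t • W).det = 0 := by
  haveI : NeZero p := ⟨hp.out.ne_zero⟩
  let φ := PadicInt.toZMod (p := p)
  have hBφ : Alt (B.map φ) := hB.map' _
  have hWφ : Alt (W.map φ) := hW.map' _
  obtain ⟨w, hw, hwc⟩ := exists_second g hg (by simp) (B.map φ) hBφ v hs.1 hs.2.1
  have hX3 := det_simple hBφ hWφ hs hw hwc
  set f := pf (2 * g) (pen B W) with hf
  have hpen : ∀ i j, pen B W i j = - pen B W j i := by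
    intro i j
    rw [pen_apply, pen_apply, hB.2 i j, hW.2 i j, map_neg, map_neg]
    ring
  have hsq : f ^ 2 = (pen B W).det := pf_sq_poly _ hpen
  have hmapdet : (mapRingHom φ) (pen B W).det = (pen (B.map φ) (W.map φ)).det := by
    rw [RingHom.map_det]
    congr 1
    ext1 i j
    rw [RingHom.mapMatrix_apply, Matrix.map_apply, pen_apply, pen_apply, map_add, map_mul,
      coe_mapRingHom, map_C, map_C, map_X]
    rfl
  have hfsq : (f.map φ) ^ 2 = (pen (B.map φ) (W.map φ)).det := by
    rw [← hmapdet, ← hsq, map_pow]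
    rfl
  have heval : ∀ t : ℤ_[p], (pen B W).det.eval t = (B + t • W).det := by
    intro t
    rw [← coe_evalRingHom, RingHom.map_det]
    congr 1
    ext1 i j
    rw [RingHom.mapMatrix_apply, Matrix.map_apply, pen_apply, coe_evalRingHom, eval_add, eval_mul,
      eval_C, eval_C, eval_X]
    rfl
  have h0 : (f.map φ).coeff 0 = 0 := by
    have h1 : (B.map φ).det = 0 := Matrix.exists_mulVec_eq_zero_iff.1 ⟨v, hs.1, hs.2.1⟩
    have h2 := congrArg (eval 0) hfsq
    rw [eval_pow] at h2
    have h3 : (pen (B.map φ) (W.map φ)).det.eval 0 = (B.map φ).det := by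
      rw [← coe_evalRingHom, RingHom.map_det]
      congr 1
      ext1 i j
      rw [RingHom.mapMatrix_apply, Matrix.map_apply, pen_apply, coe_evalRingHom, eval_add, eval_mul,
        eval_C, eval_C, eval_X, zero_mul, add_zero]
    rw [h3, h1] at h2
    rw [coeff_zero_eq_eval_zero]
    exact pow_eq_zero_iff two_ne_zero |>.1 h2
  have h1 : (f.map φ).coeff 1 ≠ 0 := by
    intro h1
    apply hX3
    have h2 : (X : (ZMod p)[X]) ^ 2 ∣ f.map φ := by
      rw [X_pow_dvd_iff]
      intro d hd
      interval_cases d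
      · exact h0
      · exact h1
    have h3 : (X : (ZMod p)[X]) ^ 4 ∣ (f.map φ) ^ 2 := by
      have := pow_dvd_pow_of_dvd h2 2
      rwa [← pow_mul] at this
    rw [hfsq] at h3
    exact (pow_dvd_pow X (by norm_num)).trans h3
  have hn0 : ‖f.aeval (0 : ℤ_[p])‖ < 1 := by
    rw [coe_aeval_eq_eval, ← coeff_zero_eq_eval_zero, ← toZMod_eq_zero]
    rw [coeff_map] at h0
    exact h0
  have hn1 : ‖f.derivative.aeval (0 : ℤ_[p])‖ = 1 := by
    rw [coe_aeval_eq_eval, ← coeff_zero_eq_eval_zero, coeff_derivative, Nat.cast_zero, zero_add,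
      zero_add, mul_one]
    rw [coeff_map] at h1
    refine le_antisymm (PadicInt.norm_le_one _) (not_lt.1 fun h => h1 ?_)
    exact (toZMod_eq_zero _).2 h
  obtain ⟨t, ht, -⟩ := hensels_lemma (F := f) (a := (0 : ℤ_[p])) (by rw [hn1, one_pow]; exact hn0)
  refine ⟨t, ?_⟩
  rw [← heval, ← hsq, eval_pow]
  rw [coe_aeval_eq_eval] at ht
  rw [ht]
  exact zero_pow two_ne_zero

end

end Pool.Agent.W5h93.AP
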