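import Pool.Agent.W5h93.AP.Lin

/-! The number of alternating matrices which kill one or two given vectors. -/

set_option autoImplicit false
set_option linter.all false

open Matrix Finset

noncomputable section

namespace Pool.Agent.W5h93.AP

open Pool.Agent.Y109.PI
open scoped Classical

variable {F I : Type} [Field F] [Fintype F] [Fintype I]

/-- the number of alternating matrices killing `v` -/
def k1 (v : I → F) : ℝ := ((univ.filter fun A : altS I F => A.1 *ᵥ v = 0).card : ℝ)

/-- the number of alternating matrices killing `v` and `w` -/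
def k2 (v w : I → F) : ℝ := ((univ.filter fun A : altS I F => A.1 *ᵥ v = 0 ∧ A.1 *ᵥ w = 0).card : ℝ)

/-- extension by zero -/
def ext0 {p : I → Prop} (x : {l // p l} → F) (l : I) : F := if h : p l then x ⟨l, h⟩ else 0

theorem ext0_of {p : I → Prop} (x : {l // p l} → F) {l : I} (h : p l) : ext0 x l = x ⟨l, h⟩ := dif_pos h

theorem ext0_not {p : I → Prop} (x : {l // p l} → F) {l : I} (h : ¬ p l) : ext0 x l = 0 := dif_neg h

/-- `T q ≤ N k1` -/
theorem k1_ge (v : I → F) (hv : v ≠ 0) : T I F * q F ≤ NN I F * k1 v := by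
  have h1 : Fintype.card (altS I F) ≤ (univ.filter fun A : altS I F => A.1 *ᵥ v = 0).card *
      (univ.filter fun w : I → F => v ⬝ᵥ w = 0).card := by
    rw [← card_univ]
    refine card_le_mul_card_image_of_maps_to (f := fun A : altS I F => A.1 *ᵥ v) ?_ _ ?_
    · intro A _
      rw [mem_filter]
      exact ⟨mem_univ _, alt_dot_self A.2 v⟩
    · intro a _
      have := fiber_le v v a a
      simpa only [and_self] using this
  have h2 : T I F ≤ k1 v * ((univ.filter fun w : I → F => v ⬝ᵥ w = 0).card : ℝ) := by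
    unfold T k1
    exact_mod_cast h1
  have h3 := perp_le v hv
  have h4 : 0 ≤ k1 v := Nat.cast_nonneg _
  have hq := q_two (F := F)
  calc T I F * q F ≤ (k1 v * ((univ.filter fun w : I → F => v ⬝ᵥ w = 0).card : ℝ)) * q F :=
        mul_le_mul_of_nonneg_right h2 (by linarith)
    _ = k1 v * (((univ.filter fun w : I → F => v ⬝ᵥ w = 0).card : ℝ) * q F) := by ring
    _ ≤ k1 v * NN I F := mul_le_mul_of_nonneg_left h3 h4
    _ = _ := mul_comm _ _

/-- `q` times the number of functions on the complement of a point -/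
theorem card_compl1 (i : I) : (Fintype.card ({l // l ≠ i} → F) : ℝ) * q F = NN I F := by
  unfold q NN
  have h : Fintype.card ({l // l ≠ i} → F) * Fintype.card F = Fintype.card (I → F) := by
    rw [Fintype.card_fun, Fintype.card_fun, ← pow_succ]
    congr 1
    rw [Fintype.card_subtype_compl, Fintype.card_subtype_eq]
    have : 0 < Fintype.card I := Fintype.card_pos_iff.2 ⟨i⟩
    omega
  exact_mod_cast h

theorem card_compl2 (i j : I) (hij : i ≠ j) :
    (Fintype.card ({l // l ≠ i ∧ l ≠ j} → F) : ℝ) * q F ^ 2 = NN I F := by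
  unfold q NN
  have h : Fintype.card ({l // l ≠ i ∧ l ≠ j} → F) * Fintype.card F ^ 2 = Fintype.card (I → F) := by
    rw [Fintype.card_fun, Fintype.card_fun, ← pow_add]
    congr 1
    have h1 : Fintype.card {l // l ≠ i ∧ l ≠ j} = ((univ : Finset I).erase i).card - 1 := by
      rw [Fintype.card_subtype, ← card_erase_of_mem (mem_erase.2 ⟨hij.symm, mem_univ j⟩)]
      congr 1
      ext l
      simp only [mem_filter, mem_univ, true_and, mem_erase]
      tauto
    rw [h1, card_erase_of_mem (mem_univ i), card_univ]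
    have : 1 < Fintype.card I := Fintype.one_lt_card_iff.2 ⟨i, j, hij⟩
    omega
  exact_mod_cast h

/-- `k1 N ≤ T q` -/
theorem k1_le (v : I → F) (hv : v ≠ 0) : NN I F * k1 v ≤ T I F * q F := by
  obtain ⟨i, hi⟩ := Function.ne_iff.1 hv
  have h1 : (univ.filter fun A : altS I F => A.1 *ᵥ v = 0).card * Fintype.card ({l // l ≠ i} → F) ≤
      Fintype.card (altS I F) := by
    rw [← card_univ (α := {l // l ≠ i} → F), ← card_product, ← card_univ (α := altS I F)]
    refine card_le_card_of_injOn
      (fun x => (x.1 + ⟨wdg (Pi.single i 1) (ext0 x.2), alt_wdg _ _⟩ : altS I F))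
      (fun _ _ => mem_coe.2 (mem_univ _)) ?_
    rintro ⟨A, x⟩ hA ⟨B, y⟩ hB h
    rw [mem_coe, mem_product, mem_filter] at hA hB
    have hm : A.1 + wdg (Pi.single i 1) (ext0 x) = B.1 + wdg (Pi.single i 1) (ext0 y) :=
      congrArg Subtype.val h
    have hD : ∀ k l, A.1 k l - B.1 k l = wdg (Pi.single i 1) (ext0 y) k l -
        wdg (Pi.single i 1) (ext0 x) k l := by
      intro k l
      have := congrFun (congrFun hm k) l
      simp only [Matrix.add_apply] at this
      linear_combination this
    have hki : ∀ k, k ≠ i → A.1 k i - B.1 k i = 0 := by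
      intro k hk
      have e1 : ∑ l, (A.1 k l - B.1 k l) * v l = 0 := by
        have e2 := congrFun hA.1.2 k
        have e3 := congrFun hB.1.2 k
        simp only [mulVec, dotProduct, Pi.zero_apply] at e2 e3
        simp only [sub_mul, sum_sub_distrib]
        rw [e2, e3, sub_zero]
      rw [sum_eq_single i] at e1
      · exact (mul_eq_zero.1 e1).resolve_right hi
      · intro l _ hl
        rw [hD]
        simp only [wdg, Matrix.of_apply, Pi.single_eq_of_ne hk, Pi.single_eq_of_ne hl]
        ring
      · intro h; exact absurd (mem_univ _) h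
    have hxy : x = y := by
      funext ⟨k, hk⟩
      have e1 := hki k hk
      rw [hD] at e1
      simp only [wdg, Matrix.of_apply, Pi.single_eq_of_ne hk, Pi.single_eq_same, zero_mul, zero_sub,
        mul_one, ext0_of (p := fun l => l ≠ i) _ hk] at e1
      linear_combination e1
    subst hxy
    have : A = B := add_right_cancel h
    rw [this]
  have h2 : k1 v * (Fintype.card ({l // l ≠ i} → F) : ℝ) ≤ T I F := by
    unfold k1 T
    exact_mod_cast h1
  have hq := q_two (F := F)
  rw [← card_compl1 i]
  calc (Fintype.card ({l // l ≠ i} → F) : ℝ) * q F * k1 v =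
        (k1 v * (Fintype.card ({l // l ≠ i} → F) : ℝ)) * q F := by ring
    _ ≤ _ := mul_le_mul_of_nonneg_right h2 (by linarith)

/-- an alternating matrix killing two vectors -/
theorem zero_of_kill {D : Matrix I I F} (hD : Alt D) {v w : I → F} (hv : D *ᵥ v = 0) (hw : D *ᵥ w = 0)
    {i j : I} (hij : i ≠ j) (hδ : v i * w j - v j * w i ≠ 0)
    (h0 : ∀ k l, k ≠ i → k ≠ j → l ≠ i → l ≠ j → D k l = 0) : D = 0 := by
  have two : ∀ a b : F, a * v i + b * v j = 0 → a * w i + b * w j = 0 → a = 0 ∧ b = 0 := by
    intro a b h1 h2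
    constructor
    · have : a * (v i * w j - v j * w i) = 0 := by linear_combination w j * h1 - v j * h2
      exact (mul_eq_zero.1 this).resolve_right hδ
    · have : b * (v i * w j - v j * w i) = 0 := by linear_combination v i * h2 - w i * h1
      exact (mul_eq_zero.1 this).resolve_right hδ
  have hsum : ∀ (x : I → F) (k : I), (∀ l, l ≠ i → l ≠ j → D k l = 0) → (D *ᵥ x) k = D k i * x i + D k j * x j := by
    intro x k hk
    simp only [mulVec, dotProduct]
    rw [← sum_subset (subset_univ {i, j}), sum_pair hij]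
    intro l _ hl
    simp only [mem_insert, mem_singleton, not_or] at hl
    rw [hk l hl.1 hl.2, zero_mul]
  have hrow : ∀ k, k ≠ i → k ≠ j → D k i = 0 ∧ D k j = 0 := by
    intro k hki hkj
    have e1 := congrFun hv k
    have e2 := congrFun hw k
    rw [hsum v k (fun l => h0 k l hki hkj)] at e1
    rw [hsum w k (fun l => h0 k l hki hkj)] at e2
    exact two _ _ e1 e2
  have hi : ∀ l, l ≠ i → l ≠ j → D i l = 0 := by
    intro l hli hlj
    rw [hD.2 i l, (hrow l hli hlj).1, neg_zero]
  have hj : ∀ l, l ≠ i → l ≠ j → D j l = 0 := by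
    intro l hli hlj
    rw [hD.2 j l, (hrow l hli hlj).2, neg_zero]
  have hDij : D i j = 0 := by
    have e1 := congrFun hv i
    have e2 := congrFun hw i
    rw [hsum v i hi, hD.1] at e1
    rw [hsum w i hi, hD.1] at e2
    exact (two 0 (D i j) e1 e2).2
  ext k l
  rw [Matrix.zero_apply]
  by_cases hki : k = i
  · subst hki
    by_cases hli : l = k
    · subst hli; exact hD.1 _
    · by_cases hlj : l = j
      · subst hlj; exact hDij
      · exact hi l hli hlj
  · by_cases hkj : k = j
    · subst hkj
      by_cases hli : l = i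
      · subst hli; rw [hD.2, hDij, neg_zero]
      · by_cases hlj : l = k
        · subst hlj; exact hD.1 _
        · exact hj l hli hlj
    · by_cases hli : l = i
      · subst hli; exact (hrow k hki hkj).1
      · by_cases hlj : l = j
        · subst hlj; exact (hrow k hki hkj).2
        · exact h0 k l hki hkj hli hlj

/-- independent vectors have a nonzero minor -/
theorem exists_minor {v w : I → F} (hv : v ≠ 0) (hw : ∀ c : F, w ≠ c • v) :
    ∃ i j, i ≠ j ∧ v i * w j - v j * w i ≠ 0 := by
  obtain ⟨i, hi⟩ := Function.ne_iff.1 hv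
  by_contra hcon
  push Not at hcon
  apply hw (w i / v i)
  funext j
  rw [Pi.smul_apply, smul_eq_mul]
  by_cases hij : i = j
  · subst hij
    rw [div_mul_cancel₀ _ hi]
  · have h := hcon i j hij
    rw [div_mul_eq_mul_div, eq_div_iff hi]
    linear_combination h

/-- `k2 N ^ 2 ≤ T q ^ 3` -/
theorem k2_le (v w : I → F) (hv : v ≠ 0) (hw : ∀ c : F, w ≠ c • v) :
    NN I F ^ 2 * k2 v w ≤ T I F * q F ^ 3 := by
  obtain ⟨i, j, hij, hδ⟩ := exists_minor hv hw
  have h1 : (univ.filter fun A : altS I F => A.1 *ᵥ v = 0 ∧ A.1 *ᵥ w = 0).card *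
      Fintype.card (({l // l ≠ i} → F) × ({l // l ≠ i ∧ l ≠ j} → F)) ≤ Fintype.card (altS I F) := by
    rw [← card_univ (α := ({l // l ≠ i} → F) × ({l // l ≠ i ∧ l ≠ j} → F)), ← card_product,
      ← card_univ (α := altS I F)]
    refine card_le_card_of_injOn
      (fun x => (x.1 + ⟨wdg (Pi.single i 1) (ext0 x.2.1) + wdg (Pi.single j 1) (ext0 x.2.2),
        (alt_wdg _ _).add (alt_wdg _ _)⟩ : altS I F))
      (fun _ _ => mem_coe.2 (mem_univ _)) ?_
    rintro ⟨A, x, x'⟩ hA ⟨B, y, y'⟩ hB h
    rw [mem_coe, mem_product, mem_filter] at hA hB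
    have hm : A.1 + (wdg (Pi.single i 1) (ext0 x) + wdg (Pi.single j 1) (ext0 x')) =
        B.1 + (wdg (Pi.single i 1) (ext0 y) + wdg (Pi.single j 1) (ext0 y')) :=
      congrArg Subtype.val h
    have hDalt : Alt (A.1 - B.1) := A.2.sub' B.2
    have hD0 : A.1 - B.1 = 0 := by
      refine zero_of_kill hDalt (v := v) (w := w) ?_ ?_ hij hδ ?_
      · rw [Matrix.sub_mulVec, hA.1.2.1, hB.1.2.1, sub_zero]
      · rw [Matrix.sub_mulVec, hA.1.2.2, hB.1.2.2, sub_zero]
      · intro k l hki hkj hli hlj
        have h3 := congrFun (congrFun hm k) l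
        simp only [Matrix.add_apply, wdg, Matrix.of_apply, Pi.single_eq_of_ne hki, Pi.single_eq_of_ne hkj,
          Pi.single_eq_of_ne hli, Pi.single_eq_of_ne hlj, zero_mul, mul_zero, sub_zero, add_zero] at h3
        rw [Matrix.sub_apply, h3, sub_self]
    have hAB : A = B := Subtype.ext (sub_eq_zero.1 hD0)
    subst hAB
    have hm' : wdg (Pi.single i 1) (ext0 x) + wdg (Pi.single j 1) (ext0 x') =
        wdg (Pi.single i 1) (ext0 y) + wdg (Pi.single j 1) (ext0 y') := add_left_cancel hm
    have hx' : x' = y' := by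
      funext ⟨l, hl⟩
      have h3 := congrFun (congrFun hm' j) l
      simp only [Matrix.add_apply, wdg, Matrix.of_apply, Pi.single_eq_of_ne hl.1, Pi.single_eq_of_ne hl.2,
        Pi.single_eq_of_ne hij.symm, Pi.single_eq_same, zero_mul, mul_zero, one_mul, sub_zero, zero_add,
        ext0_of (p := fun l => l ≠ i ∧ l ≠ j) _ hl] at h3
      exact h3
    subst hx'
    have hm'' := add_right_cancel hm'
    have hx : x = y := by
      funext ⟨l, hl⟩
      have h3 := congrFun (congrFun hm'' i) l
      simp only [wdg, Matrix.of_apply, Pi.single_eq_of_ne hl, Pi.single_eq_same, mul_zero, one_mul,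
        sub_zero, ext0_of (p := fun l => l ≠ i) _ hl] at h3
      exact h3
    rw [hx]
  have h2 : k2 v w * ((Fintype.card ({l // l ≠ i} → F) : ℝ) *
      (Fintype.card ({l // l ≠ i ∧ l ≠ j} → F) : ℝ)) ≤ T I F := by
    unfold k2 T
    rw [Fintype.card_prod] at h1
    exact_mod_cast h1
  have hq := q_two (F := F)
  have e1 := card_compl1 (F := F) i
  have e2 := card_compl2 (F := F) i j hij
  have hq3 : (0 : ℝ) ≤ q F ^ 3 := by positivity
  calc NN I F ^ 2 * k2 v w = (NN I F * NN I F) * k2 v w := by ring
    _ = (((Fintype.card ({l // l ≠ i} → F) : ℝ) * q F) *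
        ((Fintype.card ({l // l ≠ i ∧ l ≠ j} → F) : ℝ) * q F ^ 2)) * k2 v w := by
        rw [e1, e2]
    _ = (k2 v w * ((Fintype.card ({l // l ≠ i} → F) : ℝ) *
      (Fintype.card ({l // l ≠ i ∧ l ≠ j} → F) : ℝ))) * q F ^ 3 := by ring
    _ ≤ _ := mul_le_mul_of_nonneg_right h2 hq3

end Pool.Agent.W5h93.AP
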