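import Mathlib
import Pool.Agent.Y109.PI.Chev

/-! Counting alternating matrices over a finite field with given values. -/

set_option autoImplicit false
set_option linter.all false

open Matrix Finset

noncomputable section

namespace Pool.Agent.W5h93.AP

open Pool.Agent.Y109.PI
open scoped Classical

/-- the group of the alternating matrices -/
def altS (I R : Type*) [CommRing R] : AddSubgroup (Matrix I I R) where
  carrier := {A | Alt A}
  zero_mem' := ⟨fun u => rfl, fun u v => by simp⟩
  add_mem' := fun ha hb => ha.add hb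
  neg_mem' := by
    intro a ha
    refine ⟨fun u => ?_, fun u v => ?_⟩
    · rw [Matrix.neg_apply, ha.1, neg_zero]
    · rw [Matrix.neg_apply, Matrix.neg_apply, ha.2 u v]

section

variable {F I : Type} [Field F] [Fintype F] [Fintype I]

instance : Fintype (altS I F) := Fintype.ofFinite _

/-- `T`, the number of alternating matrices -/
def T (I F : Type) [Field F] [Fintype F] [Fintype I] : ℝ := Fintype.card (altS I F)

/-- `q ^ n` -/
def NN (I F : Type) [Field F] [Fintype F] [Fintype I] : ℝ := Fintype.card (I → F)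

/-- `q` -/
def q (F : Type) [Field F] [Fintype F] : ℝ := Fintype.card F

theorem q_two : 2 ≤ q F := by
  unfold q
  have := Fintype.one_lt_card (α := F)
  exact_mod_cast this

theorem T_pos : 0 < T I F := by
  unfold T
  exact_mod_cast Fintype.card_pos

theorem NN_pos : 0 < NN I F := by
  unfold NN
  exact_mod_cast Fintype.card_pos

/-- matrices with prescribed values: at most as many as in the homogeneous case -/
theorem fiber_le (v w a b : I → F) :
    (univ.filter fun A : altS I F => A.1 *ᵥ v = a ∧ A.1 *ᵥ w = b).card ≤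
      (univ.filter fun A : altS I F => A.1 *ᵥ v = 0 ∧ A.1 *ᵥ w = 0).card := by
  rcases (univ.filter fun A : altS I F => A.1 *ᵥ v = a ∧ A.1 *ᵥ w = b).eq_empty_or_nonempty with h | ⟨A₀, h₀⟩
  · rw [h]; simp
  · rw [mem_filter] at h₀
    refine card_le_card_of_injOn (fun A => A - A₀) ?_ (fun A _ B _ h => sub_left_injective h)
    intro A hA
    rw [mem_coe, mem_filter] at hA ⊢
    refine ⟨mem_univ _, ?_, ?_⟩
    · rw [AddSubgroup.coe_sub, Matrix.sub_mulVec, hA.2.1, h₀.2.1, sub_self]
    · rw [AddSubgroup.coe_sub, Matrix.sub_mulVec, hA.2.2, h₀.2.2, sub_self]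

/-- vectors orthogonal to a nonzero vector -/
theorem perp_le (v : I → F) (hv : v ≠ 0) :
    ((univ.filter fun w : I → F => v ⬝ᵥ w = 0).card : ℝ) * q F ≤ NN I F := by
  obtain ⟨i, hi⟩ := Function.ne_iff.1 hv
  unfold q NN
  have h : (univ.filter fun w : I → F => v ⬝ᵥ w = 0).card * Fintype.card F ≤ Fintype.card (I → F) := by
    rw [← card_univ (α := F), ← card_product, ← card_univ (α := I → F)]
    refine card_le_card_of_injOn (fun x => x.1 + Pi.single i x.2) (fun _ _ => mem_coe.2 (mem_univ _)) ?_
    rintro ⟨w, c⟩ hw ⟨w', c'⟩ hw' h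
    rw [mem_coe, mem_product, mem_filter] at hw hw'
    have h0 : c = c' := by
      have h1 := congrArg (fun x => v ⬝ᵥ x) h
      simp only [dotProduct_add, dotProduct_single, hw.1.2, hw'.1.2, zero_add] at h1
      exact mul_left_cancel₀ hi h1
    subst h0
    have h1 : w = w' := add_right_cancel h
    rw [h1]
  exact_mod_cast h

/-- the kernel of a nonzero alternating matrix -/
theorem ker_le (ω : Matrix I I F) (hω : Alt ω) (h0 : ω ≠ 0) :
    ((univ.filter fun w : I → F => ω *ᵥ w = 0).card : ℝ) * q F ^ 2 ≤ NN I F := by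
  obtain ⟨i, hi⟩ := Function.ne_iff.1 h0
  obtain ⟨j, hj⟩ := Function.ne_iff.1 hi
  have hij : ω i j ≠ 0 := hj
  have hne : i ≠ j := by
    rintro rfl
    exact hij (hω.1 i)
  have hji : ω j i ≠ 0 := by
    rw [hω.2 j i, neg_ne_zero]
    exact hij
  unfold q NN
  have h : (univ.filter fun w : I → F => ω *ᵥ w = 0).card * (Fintype.card F * Fintype.card F) ≤
      Fintype.card (I → F) := by
    rw [← Fintype.card_prod, ← card_univ (α := F × F), ← card_product, ← card_univ (α := I → F)]
    refine card_le_card_of_injOn (fun x => x.1 + (Pi.single i x.2.1 + Pi.single j x.2.2))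
      (fun _ _ => mem_coe.2 (mem_univ _)) ?_
    rintro ⟨w, c, d⟩ hw ⟨w', c', d'⟩ hw' h
    rw [mem_coe, mem_product, mem_filter] at hw hw'
    have h1 := congrArg (fun x => ω *ᵥ x) h
    simp only [mulVec_add, hw.1.2, hw'.1.2, zero_add, mulVec_single] at h1
    have hi1 := congrFun h1 i
    have hj1 := congrFun h1 j
    simp only [Pi.add_apply, Pi.smul_apply, Matrix.col_apply, MulOpposite.smul_eq_mul_unop,
      MulOpposite.unop_op, hω.1, zero_mul, zero_add, add_zero] at hi1 hj1
    have hd : d = d' := mul_left_cancel₀ hij hi1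
    have hc : c = c' := mul_left_cancel₀ hji hj1
    subst hc hd
    have h2 : w = w' := add_right_cancel h
    rw [h2]
  have h' : ((univ.filter fun w : I → F => ω *ᵥ w = 0).card : ℝ) *
      ((Fintype.card F : ℝ) * Fintype.card F) ≤ Fintype.card (I → F) := by exact_mod_cast h
  rw [pow_two]
  exact h'

/-- the number of pairs on which a nonzero alternating form vanishes -/
theorem pairs_le (ω : Matrix I I F) (hω : Alt ω) (h0 : ω ≠ 0) :
    ((univ.filter fun x : (I → F) × (I → F) => x.1 ⬝ᵥ (ω *ᵥ x.2) = 0).card : ℝ) * q F ^ 2 ≤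
      NN I F ^ 2 * (q F + 1) := by
  have hq := q_two (F := F)
  have hN := NN_pos (I := I) (F := F)
  have h1 : ((univ.filter fun x : (I → F) × (I → F) => x.1 ⬝ᵥ (ω *ᵥ x.2) = 0).card : ℝ) =
      ∑ w : I → F, ((univ.filter fun v : I → F => (ω *ᵥ w) ⬝ᵥ v = 0).card : ℝ) := by
    have h2 : (univ.filter fun x : (I → F) × (I → F) => x.1 ⬝ᵥ (ω *ᵥ x.2) = 0).card =
        ∑ w : I → F, (univ.filter fun v : I → F => (ω *ᵥ w) ⬝ᵥ v = 0).card := by
      rw [card_eq_sum_card_fiberwise (f := fun x : (I → F) × (I → F) => x.2) (t := univ)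
        (fun _ _ => mem_coe.2 (mem_univ _))]
      refine sum_congr rfl fun w _ => ?_
      refine card_nbij' (fun x => x.1) (fun v => (v, w)) ?_ ?_ ?_ ?_
      · rintro ⟨v, w'⟩ h
        simp only [coe_filter, mem_filter, mem_univ, true_and, Set.mem_setOf_eq] at h ⊢
        rw [← h.2, dotProduct_comm]
        exact h.1
      · intro v h
        simp only [coe_filter, mem_filter, mem_univ, true_and, Set.mem_setOf_eq] at h ⊢
        refine ⟨?_, trivial⟩
        rw [dotProduct_comm]
        exact h
      · rintro ⟨v, w'⟩ h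
        simp only [coe_filter, mem_filter, mem_univ, true_and, Set.mem_setOf_eq] at h
        exact Prod.ext rfl h.2.symm
      · intro v _
        rfl
    rw [h2]
    push_cast
    rfl
  have h3 : ∀ w : I → F, ((univ.filter fun v : I → F => (ω *ᵥ w) ⬝ᵥ v = 0).card : ℝ) * q F ≤
      (if ω *ᵥ w = 0 then NN I F * q F else 0) + NN I F := by
    intro w
    by_cases hw : ω *ᵥ w = 0
    · rw [if_pos hw]
      have h4 : ((univ.filter fun v : I → F => (ω *ᵥ w) ⬝ᵥ v = 0).card : ℝ) ≤ NN I F := by
        unfold NN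
        exact_mod_cast card_le_univ _
      nlinarith
    · rw [if_neg hw, zero_add]
      exact perp_le _ hw
  have h4 : ∑ w : I → F, ((if ω *ᵥ w = 0 then NN I F * q F else 0) + NN I F) =
      ((univ.filter fun w : I → F => ω *ᵥ w = 0).card : ℝ) * (NN I F * q F) + NN I F * NN I F := by
    rw [sum_add_distrib, ← sum_filter, sum_const, sum_const, nsmul_eq_mul, nsmul_eq_mul, card_univ]
    rfl
  have h5 : ((univ.filter fun x : (I → F) × (I → F) => x.1 ⬝ᵥ (ω *ᵥ x.2) = 0).card : ℝ) * q F ≤
      ((univ.filter fun w : I → F => ω *ᵥ w = 0).card : ℝ) * (NN I F * q F) + NN I F * NN I F := by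
    rw [h1, sum_mul, ← h4]
    exact sum_le_sum fun w _ => h3 w
  have h6 := ker_le ω hω h0
  calc ((univ.filter fun x : (I → F) × (I → F) => x.1 ⬝ᵥ (ω *ᵥ x.2) = 0).card : ℝ) * q F ^ 2
      = (((univ.filter fun x : (I → F) × (I → F) => x.1 ⬝ᵥ (ω *ᵥ x.2) = 0).card : ℝ) * q F) * q F := by ring
    _ ≤ (((univ.filter fun w : I → F => ω *ᵥ w = 0).card : ℝ) * (NN I F * q F) + NN I F * NN I F) * q F :=
        mul_le_mul_of_nonneg_right h5 (by linarith)
    _ = (((univ.filter fun w : I → F => ω *ᵥ w = 0).card : ℝ) * q F ^ 2) * NN I F + NN I F ^ 2 * q F := by ring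
    _ ≤ NN I F * NN I F + NN I F ^ 2 * q F := by
        have := mul_le_mul_of_nonneg_right h6 hN.le
        linarith
    _ = _ := by ring

end

end Pool.Agent.W5h93.AP
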