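import Pool.Agent.W5h93.AP.Ker

/-! First and second moments of the number of degenerate translates. -/

set_option autoImplicit false
set_option linter.all false

open Matrix Finset

noncomputable section

namespace Pool.Agent.W5h93.AP

open Pool.Agent.Y109.PI
open scoped Classical

variable {F I : Type} [Field F] [Fintype F] [Fintype I]

/-- `v` spans, together with a vector which is not orthogonal to it for `ω`, the kernel of `A` -/
def Simple (ω A : Matrix I I F) (v : I → F) : Prop :=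
  v ≠ 0 ∧ A *ᵥ v = 0 ∧ ∀ w, A *ᵥ w = 0 → v ⬝ᵥ (ω *ᵥ w) = 0 → ∃ c : F, w = c • v

/-- indicator -/
def ii (P : Prop) : ℝ := if P then 1 else 0

theorem ii_nonneg (P : Prop) : 0 ≤ ii P := by unfold ii; split_ifs <;> norm_num

theorem ii_le_one (P : Prop) : ii P ≤ 1 := by unfold ii; split_ifs <;> norm_num

theorem ii_true {P : Prop} (h : P) : ii P = 1 := if_pos h

theorem ii_false {P : Prop} (h : ¬ P) : ii P = 0 := if_neg h

theorem ii_mono {P Q : Prop} (h : P → Q) : ii P ≤ ii Q := by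
  by_cases hP : P
  · rw [ii_true hP, ii_true (h hP)]
  · rw [ii_false hP]; exact ii_nonneg Q

theorem sum_ii {α : Type*} [Fintype α] (P : α → Prop) [DecidablePred P] :
    ∑ a, ii (P a) = ((univ.filter P).card : ℝ) := by
  unfold ii
  rw [← sum_boole]
  refine sum_congr rfl fun a _ => ?_
  by_cases h : P a
  · rw [if_pos h, if_pos h]
  · rw [if_neg h, if_neg h]

theorem k1_eq (v : I → F) : k1 v = ∑ A : altS I F, ii (A.1 *ᵥ v = 0) := by
  unfold k1
  rw [← sum_ii]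

theorem k2_eq (v w : I → F) : k2 v w = ∑ A : altS I F, ii (A.1 *ᵥ v = 0 ∧ A.1 *ᵥ w = 0) := by
  unfold k2
  rw [← sum_ii]

theorem sum_ii_ne : ∑ v : I → F, ii (v ≠ 0) = NN I F - 1 := by
  have h : ∀ v : I → F, ii (v ≠ 0) = 1 - (if v = 0 then 1 else 0) := by
    intro v
    by_cases hv : v = 0
    · rw [if_pos hv, ii_false (fun h => h hv), sub_self]
    · rw [if_neg hv, ii_true hv, sub_zero]
  simp only [h]
  rw [sum_sub_distrib, sum_ite_eq' univ (0 : I → F), if_pos (mem_univ _), sum_const, card_univ,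
    nsmul_eq_mul, mul_one]
  rfl

theorem N_ge (hI : 2 ≤ Fintype.card I) : q F ^ 2 ≤ NN I F := by
  unfold q NN
  rw [Fintype.card_fun]
  have h1 : 1 ≤ Fintype.card F := Fintype.card_pos
  have : Fintype.card F ^ 2 ≤ Fintype.card F ^ Fintype.card I := Nat.pow_le_pow_right h1 hI
  exact_mod_cast this

theorem div_bound {a b c : ℝ} (hb : 0 < b) (h : b * a ≤ c) : a ≤ c / b := by
  rw [le_div_iff₀ hb]; linarith

theorem k1_le' (v : I → F) (hv : v ≠ 0) : k1 v ≤ T I F * q F / NN I F := div_bound NN_pos (k1_le v hv)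

theorem k1_ge' (v : I → F) (hv : v ≠ 0) : T I F * q F / NN I F ≤ k1 v := by
  rw [div_le_iff₀ NN_pos]
  have := k1_ge v hv
  linarith

theorem k2_le' (v w : I → F) (hv : v ≠ 0) (hw : ∀ c : F, w ≠ c • v) :
    k2 v w ≤ T I F * q F ^ 3 / NN I F ^ 2 := div_bound (pow_pos NN_pos 2) (k2_le v w hv hw)

/-- all pairs `(A, v)` -/
theorem S1_ge (hI : 2 ≤ Fintype.card I) : T I F * (q F - 1 / q F) ≤
    ∑ A : altS I F, ∑ v : I → F, ii (v ≠ 0 ∧ A.1 *ᵥ v = 0) := by
  have hq := q_two (F := F)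
  have hN := NN_pos (I := I) (F := F)
  have hT := T_pos (I := I) (F := F)
  rw [sum_comm]
  have h1 : ∀ v : I → F, ii (v ≠ 0) * (T I F * q F / NN I F) ≤
      ∑ A : altS I F, ii (v ≠ 0 ∧ A.1 *ᵥ v = 0) := by
    intro v
    by_cases hv : v = 0
    · rw [ii_false (fun h => h hv), zero_mul]
      exact sum_nonneg fun A _ => ii_nonneg _
    · rw [ii_true hv, one_mul]
      refine (k1_ge' v hv).trans ?_
      rw [k1_eq]
      exact sum_le_sum fun A _ => ii_mono fun h => ⟨hv, h⟩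
  refine le_trans ?_ (sum_le_sum fun v _ => h1 v)
  rw [← sum_mul, sum_ii_ne]
  have h2 : (NN I F - 1) * (T I F * q F / NN I F) = T I F * (q F - q F / NN I F) := by
    field_simp
  rw [h2]
  refine mul_le_mul_of_nonneg_left ?_ hT.le
  have h3 : q F / NN I F ≤ 1 / q F := by
    rw [div_le_div_iff₀ hN (by linarith)]
    have := N_ge (F := F) hI
    nlinarith
  linarith

/-- the sum over the pairs on which a form vanishes -/
theorem pairs_le' (ω : Matrix I I F) (hω : Alt ω) (h0 : ω ≠ 0) :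
    ∑ v : I → F, ∑ w : I → F, ii (v ⬝ᵥ (ω *ᵥ w) = 0) ≤ NN I F ^ 2 * (q F + 1) / q F ^ 2 := by
  have hq := q_two (F := F)
  have h1 := pairs_le ω hω h0
  rw [← sum_ii, Fintype.sum_prod_type] at h1
  exact (le_div_iff₀ (by positivity)).2 h1

/-- the sum over the triples -/
theorem trip_le (ω : Matrix I I F) (hω : Alt ω) (h0 : ω ≠ 0) :
    ∑ v : I → F, ∑ w : I → F, ii (v ⬝ᵥ (ω *ᵥ w) = 0) * (T I F * q F ^ 3 / NN I F ^ 2) ≤
      T I F * (q F ^ 2 + q F) := by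
  have hq := q_two (F := F)
  have hN := NN_pos (I := I) (F := F)
  have hT := T_pos (I := I) (F := F)
  have hK : 0 ≤ T I F * q F ^ 3 / NN I F ^ 2 := by positivity
  have h1 : ∑ v : I → F, ∑ w : I → F, ii (v ⬝ᵥ (ω *ᵥ w) = 0) * (T I F * q F ^ 3 / NN I F ^ 2) =
      (∑ v : I → F, ∑ w : I → F, ii (v ⬝ᵥ (ω *ᵥ w) = 0)) * (T I F * q F ^ 3 / NN I F ^ 2) := by
    simp only [sum_mul]
  rw [h1]
  refine (mul_le_mul_of_nonneg_right (pairs_le' ω hω h0) hK).trans (le_of_eq ?_)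
  field_simp

/-- pairs `(A, v)` for which the kernel is degenerate for `ω` -/
theorem SB_le (ω : Matrix I I F) (hω : Alt ω) (h0 : ω ≠ 0) :
    (∑ A : altS I F, ∑ v : I → F, ii (v ≠ 0 ∧ A.1 *ᵥ v = 0 ∧
      ∃ w, A.1 *ᵥ w = 0 ∧ v ⬝ᵥ (ω *ᵥ w) = 0 ∧ ∀ c : F, w ≠ c • v)) * (q F * (q F - 1)) ≤
      T I F * (q F ^ 2 + q F) := by
  have hq := q_two (F := F)
  refine le_trans ?_ (trip_le ω hω h0)
  have h1 : ∀ (A : altS I F) (v : I → F), ii (v ≠ 0 ∧ A.1 *ᵥ v = 0 ∧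
      ∃ w, A.1 *ᵥ w = 0 ∧ v ⬝ᵥ (ω *ᵥ w) = 0 ∧ ∀ c : F, w ≠ c • v) * (q F * (q F - 1)) ≤
      ∑ w : I → F, ii (v ≠ 0 ∧ A.1 *ᵥ v = 0 ∧ A.1 *ᵥ w = 0 ∧ v ⬝ᵥ (ω *ᵥ w) = 0 ∧ ∀ c : F, w ≠ c • v) := by
    intro A v
    by_cases h : v ≠ 0 ∧ A.1 *ᵥ v = 0 ∧ ∃ w, A.1 *ᵥ w = 0 ∧ v ⬝ᵥ (ω *ᵥ w) = 0 ∧ ∀ c : F, w ≠ c • v
    · rw [ii_true h, one_mul, sum_ii]
      obtain ⟨hv, hAv, w, hAw, hvw, hwc⟩ := h
      have h2 : (univ : Finset (Fˣ × F)).card ≤ (univ.filter fun w : I → F => v ≠ 0 ∧ A.1 *ᵥ v = 0 ∧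
          A.1 *ᵥ w = 0 ∧ v ⬝ᵥ (ω *ᵥ w) = 0 ∧ ∀ c : F, w ≠ c • v).card := by
        refine card_le_card_of_injOn (fun x => (x.1 : F) • w + x.2 • v) ?_ ?_
        · rintro ⟨c, d⟩ _
          rw [mem_coe, mem_filter]
          refine ⟨mem_univ _, hv, hAv, ?_, ?_, ?_⟩
          · rw [mulVec_add, mulVec_smul, mulVec_smul, hAw, hAv, smul_zero, smul_zero, add_zero]
          · rw [mulVec_add, mulVec_smul, mulVec_smul, dotProduct_add, dotProduct_smul, dotProduct_smul,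
              hvw, alt_dot_self hω, smul_zero, smul_zero, add_zero]
          · intro e he
            apply hwc ((c : F)⁻¹ * (e - d))
            have h3 : (c : F) • w = (e - d) • v := by
              rw [sub_smul, ← he]; simp
            rw [mul_smul, ← h3, smul_smul, inv_mul_cancel₀ c.ne_zero, one_smul]
        · rintro ⟨c, d⟩ _ ⟨c', d'⟩ _ h
          simp only at h
          by_cases hcc : (c : F) = c'
          · have hc' : c = c' := Units.ext hcc
            subst hc'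
            have h3 := add_left_cancel h
            have h4 : d = d' := smul_left_injective F hv h3
            rw [h4]
          · exfalso
            apply hwc (((c : F) - c')⁻¹ * (d' - d))
            have h3 : ((c : F) - c') • w = (d' - d) • v := by
              rw [sub_smul, sub_smul, sub_eq_sub_iff_add_eq_add, h]
              exact add_comm _ _
            rw [mul_smul, ← h3, smul_smul, inv_mul_cancel₀ (sub_ne_zero.2 hcc), one_smul]
      rw [card_univ, Fintype.card_prod, Fintype.card_units] at h2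
      have h3 : (q F - 1) * q F ≤ ((univ.filter fun w : I → F => v ≠ 0 ∧ A.1 *ᵥ v = 0 ∧
          A.1 *ᵥ w = 0 ∧ v ⬝ᵥ (ω *ᵥ w) = 0 ∧ ∀ c : F, w ≠ c • v).card : ℝ) := by
        unfold q
        have h4 : ((Fintype.card F - 1 : ℕ) : ℝ) = (Fintype.card F : ℝ) - 1 := by
          rw [Nat.cast_sub Fintype.card_pos]; simp
        rw [← h4]
        exact_mod_cast h2
      rw [mul_comm]
      exact h3
    · rw [ii_false h, zero_mul]
      exact sum_nonneg fun w _ => ii_nonneg _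
  rw [sum_mul]
  have h2 : ∑ A : altS I F, (∑ v : I → F, ii (v ≠ 0 ∧ A.1 *ᵥ v = 0 ∧
      ∃ w, A.1 *ᵥ w = 0 ∧ v ⬝ᵥ (ω *ᵥ w) = 0 ∧ ∀ c : F, w ≠ c • v)) * (q F * (q F - 1)) ≤
      ∑ A : altS I F, ∑ v : I → F, ∑ w : I → F, ii (v ≠ 0 ∧ A.1 *ᵥ v = 0 ∧ A.1 *ᵥ w = 0 ∧
        v ⬝ᵥ (ω *ᵥ w) = 0 ∧ ∀ c : F, w ≠ c • v) := by
    refine sum_le_sum fun A _ => ?_
    rw [sum_mul]
    exact sum_le_sum fun v _ => h1 A v
  refine h2.trans ?_
  rw [sum_comm]
  refine sum_le_sum fun v _ => ?_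
  rw [sum_comm]
  refine sum_le_sum fun w _ => ?_
  by_cases h : v ≠ 0 ∧ v ⬝ᵥ (ω *ᵥ w) = 0 ∧ ∀ c : F, w ≠ c • v
  · rw [ii_true h.2.1, one_mul]
    refine le_trans ?_ (k2_le' v w h.1 h.2.2)
    rw [k2_eq]
    exact sum_le_sum fun A _ => ii_mono fun h' => ⟨h'.2.1, h'.2.2.1⟩
  · rw [sum_eq_zero]
    · refine mul_nonneg (ii_nonneg _) ?_
      have hN := NN_pos (I := I) (F := F)
      have hT := T_pos (I := I) (F := F)
      positivity
    · intro A _
      exact ii_false fun h' => h ⟨h'.1, h'.2.2.2.1, h'.2.2.2.2⟩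

/-- **First moment.** -/
theorem SS_ge (hI : 2 ≤ Fintype.card I) (ω : Matrix I I F) (hω : Alt ω) (h0 : ω ≠ 0) :
    T I F * (q F - 1 / q F - (q F + 1) / (q F - 1)) ≤
      ∑ A : altS I F, ∑ v : I → F, ii (Simple ω A.1 v) := by
  have hq := q_two (F := F)
  have hT := T_pos (I := I) (F := F)
  have h1 := S1_ge (F := F) hI
  have h2 := SB_le ω hω h0
  have h3 : ∑ A : altS I F, ∑ v : I → F, ii (v ≠ 0 ∧ A.1 *ᵥ v = 0 ∧
      ∃ w, A.1 *ᵥ w = 0 ∧ v ⬝ᵥ (ω *ᵥ w) = 0 ∧ ∀ c : F, w ≠ c • v) ≤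
      T I F * ((q F + 1) / (q F - 1)) := by
    have h4 : 0 < q F * (q F - 1) := by nlinarith
    have h5 := (le_div_iff₀ h4).2 h2
    refine h5.trans (le_of_eq ?_)
    have : q F - 1 ≠ 0 := by linarith
    field_simp
  have h4 : ∑ A : altS I F, ∑ v : I → F, ii (v ≠ 0 ∧ A.1 *ᵥ v = 0) ≤
      ∑ A : altS I F, ∑ v : I → F, ii (Simple ω A.1 v) +
      ∑ A : altS I F, ∑ v : I → F, ii (v ≠ 0 ∧ A.1 *ᵥ v = 0 ∧
      ∃ w, A.1 *ᵥ w = 0 ∧ v ⬝ᵥ (ω *ᵥ w) = 0 ∧ ∀ c : F, w ≠ c • v) := by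
    rw [← sum_add_distrib]
    refine sum_le_sum fun A _ => ?_
    rw [← sum_add_distrib]
    refine sum_le_sum fun v _ => ?_
    by_cases h : v ≠ 0 ∧ A.1 *ᵥ v = 0
    · by_cases h' : ∃ w, A.1 *ᵥ w = 0 ∧ v ⬝ᵥ (ω *ᵥ w) = 0 ∧ ∀ c : F, w ≠ c • v
      · rw [ii_true h, ii_true (P := v ≠ 0 ∧ A.1 *ᵥ v = 0 ∧ _) ⟨h.1, h.2, h'⟩]
        linarith [ii_nonneg (Simple ω A.1 v)]
      · push Not at h'
        rw [ii_true h, ii_true (P := Simple ω A.1 v) ⟨h.1, h.2, h'⟩]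
        have := ii_nonneg (v ≠ 0 ∧ A.1 *ᵥ v = 0 ∧
          ∃ w, A.1 *ᵥ w = 0 ∧ v ⬝ᵥ (ω *ᵥ w) = 0 ∧ ∀ c : F, w ≠ c • v)
        linarith
    · rw [ii_false h]
      exact add_nonneg (ii_nonneg _) (ii_nonneg _)
  have h5 : T I F * (q F - 1 / q F - (q F + 1) / (q F - 1)) =
      T I F * (q F - 1 / q F) - T I F * ((q F + 1) / (q F - 1)) := by ring
  rw [h5]
  linarith

/-- the number of `v` proportional to `w` -/
theorem prop_le (w : I → F) (hw : w ≠ 0) : ∑ v : I → F, ii (v ≠ 0 ∧ ∃ c : F, w = c • v) ≤ q F := by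
  rw [sum_ii]
  have h : (univ.filter fun v : I → F => v ≠ 0 ∧ ∃ c : F, w = c • v).card ≤ Fintype.card F := by
    rw [← card_univ]
    refine (card_le_card (t := univ.image fun c : F => c • w) ?_).trans card_image_le
    intro v hv
    rw [mem_filter] at hv
    obtain ⟨-, -, c, hc⟩ := hv
    rw [mem_image]
    refine ⟨c⁻¹, mem_univ _, ?_⟩
    have hc0 : c ≠ 0 := by
      rintro rfl
      rw [zero_smul] at hc
      exact hw hc
    rw [hc, smul_smul, inv_mul_cancel₀ hc0, one_smul]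
  unfold q
  exact_mod_cast h

/-- pairs of kernel vectors of two translates -/
def GG (ω : Matrix I I F) : ℝ := ∑ v : I → F, ∑ w : I → F, ∑ A : altS I F,
  ii (v ≠ 0 ∧ A.1 *ᵥ v = 0) * ii (w ≠ 0 ∧ (A.1 + ω) *ᵥ w = 0)

theorem gg_term (ω : Matrix I I F) (v w : I → F) :
    ∑ A : altS I F, ii (v ≠ 0 ∧ A.1 *ᵥ v = 0) * ii (w ≠ 0 ∧ (A.1 + ω) *ᵥ w = 0) ≤
      ii (v ⬝ᵥ (ω *ᵥ w) = 0) * (T I F * q F ^ 3 / NN I F ^ 2) +
      ii (ω *ᵥ w = 0) * ii (w ≠ 0) * ii (v ≠ 0 ∧ ∃ c : F, w = c • v) * (T I F * q F / NN I F) := by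
  have hq := q_two (F := F)
  have hN := NN_pos (I := I) (F := F)
  have hT := T_pos (I := I) (F := F)
  have hK2 : 0 ≤ T I F * q F ^ 3 / NN I F ^ 2 := by positivity
  have hK1 : 0 ≤ T I F * q F / NN I F := by positivity
  have hA1 := mul_nonneg (ii_nonneg (v ⬝ᵥ (ω *ᵥ w) = 0)) hK2
  have hA2 := mul_nonneg (mul_nonneg (mul_nonneg (ii_nonneg (ω *ᵥ w = 0)) (ii_nonneg (w ≠ 0)))
    (ii_nonneg (v ≠ 0 ∧ ∃ c : F, w = c • v))) hK1
  by_cases hv : v = 0
  · rw [sum_eq_zero (fun A _ => by rw [ii_false (P := v ≠ 0 ∧ _) (fun h => h.1 hv), zero_mul])]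
    linarith
  by_cases hw : w = 0
  · rw [sum_eq_zero (fun A _ => by rw [ii_false (P := w ≠ 0 ∧ _) (fun h => h.1 hw), mul_zero])]
    linarith
  by_cases hc : ∃ c : F, w = c • v
  · by_cases hωw : ω *ᵥ w = 0
    · have h1 : ∑ A : altS I F, ii (v ≠ 0 ∧ A.1 *ᵥ v = 0) * ii (w ≠ 0 ∧ (A.1 + ω) *ᵥ w = 0) ≤ k1 v := by
        rw [k1_eq]
        refine sum_le_sum fun A _ => ?_
        calc ii (v ≠ 0 ∧ A.1 *ᵥ v = 0) * ii (w ≠ 0 ∧ (A.1 + ω) *ᵥ w = 0) ≤
              ii (v ≠ 0 ∧ A.1 *ᵥ v = 0) * 1 := mul_le_mul_of_nonneg_left (ii_le_one _) (ii_nonneg _)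
          _ ≤ _ := by rw [mul_one]; exact ii_mono fun h => h.2
      rw [ii_true hωw, ii_true hw, ii_true (P := v ≠ 0 ∧ _) ⟨hv, hc⟩, one_mul, one_mul, one_mul]
      have h2 := k1_le' v hv
      linarith
    · have h1 : ∑ A : altS I F, ii (v ≠ 0 ∧ A.1 *ᵥ v = 0) * ii (w ≠ 0 ∧ (A.1 + ω) *ᵥ w = 0) = 0 := by
        refine sum_eq_zero fun A _ => ?_
        by_cases hA : A.1 *ᵥ v = 0
        · rw [ii_false (P := w ≠ 0 ∧ _), mul_zero]
          rintro ⟨-, h⟩
          apply hωw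
          obtain ⟨c, hc⟩ := hc
          rw [Matrix.add_mulVec] at h
          have : A.1 *ᵥ w = 0 := by rw [hc, mulVec_smul, hA, smul_zero]
          rwa [this, zero_add] at h
        · rw [ii_false (P := v ≠ 0 ∧ _) (fun h => hA h.2), zero_mul]
      rw [h1]
      linarith
  · have hc' : ∀ c : F, w ≠ c • v := fun c h => hc ⟨c, h⟩
    by_cases hvw : v ⬝ᵥ (ω *ᵥ w) = 0
    · have h1 : ∑ A : altS I F, ii (v ≠ 0 ∧ A.1 *ᵥ v = 0) * ii (w ≠ 0 ∧ (A.1 + ω) *ᵥ w = 0) ≤ k2 v w := by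
        have h2 : ∑ A : altS I F, ii (v ≠ 0 ∧ A.1 *ᵥ v = 0) * ii (w ≠ 0 ∧ (A.1 + ω) *ᵥ w = 0) ≤
            ∑ A : altS I F, ii (A.1 *ᵥ v = 0 ∧ A.1 *ᵥ w = - (ω *ᵥ w)) := by
          refine sum_le_sum fun A _ => ?_
          by_cases h : (v ≠ 0 ∧ A.1 *ᵥ v = 0) ∧ (w ≠ 0 ∧ (A.1 + ω) *ᵥ w = 0)
          · rw [ii_true h.1, ii_true h.2, one_mul, ii_true (P := A.1 *ᵥ v = 0 ∧ _)]
            refine ⟨h.1.2, ?_⟩
            have h3 := h.2.2
            rw [Matrix.add_mulVec] at h3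
            exact eq_neg_of_add_eq_zero_left h3
          · by_cases h4 : v ≠ 0 ∧ A.1 *ᵥ v = 0
            · rw [ii_false (P := w ≠ 0 ∧ _) (fun h5 => h ⟨h4, h5⟩), mul_zero]
              exact ii_nonneg _
            · rw [ii_false h4, zero_mul]
              exact ii_nonneg _
        refine h2.trans ?_
        rw [sum_ii]
        have h3 := fiber_le v w 0 (- (ω *ᵥ w))
        unfold k2
        exact_mod_cast h3
      rw [ii_true hvw, one_mul]
      have h2 := k2_le' v w hv hc'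
      linarith
    · have h1 : ∑ A : altS I F, ii (v ≠ 0 ∧ A.1 *ᵥ v = 0) * ii (w ≠ 0 ∧ (A.1 + ω) *ᵥ w = 0) = 0 := by
        refine sum_eq_zero fun A _ => ?_
        by_cases hA : A.1 *ᵥ v = 0
        · rw [ii_false (P := w ≠ 0 ∧ _), mul_zero]
          rintro ⟨-, h⟩
          apply hvw
          have h3 : v ⬝ᵥ ((A.1 + ω) *ᵥ w) = 0 := by rw [h, dotProduct_zero]
          rw [Matrix.add_mulVec, dotProduct_add, alt_dot A.2 v w, hA, dotProduct_zero, neg_zero,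
            zero_add] at h3
          exact h3
        · rw [ii_false (P := v ≠ 0 ∧ _) (fun h => hA h.2), zero_mul]
      rw [h1]
      linarith

theorem gg_prop (P : (I → F) → Prop) [DecidablePred P] : ∑ v : I → F, ∑ w : I → F,
    ii (P w) * ii (w ≠ 0) * ii (v ≠ 0 ∧ ∃ c : F, w = c • v) * (T I F * q F / NN I F) ≤
      ((univ.filter P).card : ℝ) * (q F * (T I F * q F / NN I F)) := by
  have hq := q_two (F := F)
  have hN := NN_pos (I := I) (F := F)
  have hT := T_pos (I := I) (F := F)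
  have hK1 : 0 ≤ T I F * q F / NN I F := by positivity
  rw [sum_comm, ← sum_ii, sum_mul]
  refine sum_le_sum fun w _ => ?_
  by_cases hw : w = 0
  · rw [sum_eq_zero]
    · exact mul_nonneg (ii_nonneg _) (mul_nonneg (by linarith) hK1)
    · intro v _
      rw [ii_false (P := w ≠ 0) (fun h => h hw), mul_zero, zero_mul, zero_mul]
  · rw [← sum_mul, ← mul_sum, ii_true hw, mul_one, mul_assoc]
    exact mul_le_mul_of_nonneg_left (mul_le_mul_of_nonneg_right (prop_le w hw) hK1) (ii_nonneg _)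

theorem GG_le (ω : Matrix I I F) (hω : Alt ω) (h0 : ω ≠ 0) :
    GG ω ≤ T I F * (q F ^ 2 + q F + 1) := by
  have hq := q_two (F := F)
  have hN := NN_pos (I := I) (F := F)
  have hT := T_pos (I := I) (F := F)
  have h1 : GG ω ≤ ∑ v : I → F, ∑ w : I → F, (ii (v ⬝ᵥ (ω *ᵥ w) = 0) * (T I F * q F ^ 3 / NN I F ^ 2) +
      ii (ω *ᵥ w = 0) * ii (w ≠ 0) * ii (v ≠ 0 ∧ ∃ c : F, w = c • v) * (T I F * q F / NN I F)) :=
    sum_le_sum fun v _ => sum_le_sum fun w _ => gg_term ω v w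
  simp only [sum_add_distrib] at h1
  have h2 := trip_le ω hω h0
  have h3 := gg_prop (I := I) (F := F) (fun w => ω *ᵥ w = 0)
  have h4 := ker_le ω hω h0
  have h5 : ((univ.filter fun w : I → F => ω *ᵥ w = 0).card : ℝ) * (q F * (T I F * q F / NN I F)) ≤
      T I F := by
    have e1 : ((univ.filter fun w : I → F => ω *ᵥ w = 0).card : ℝ) * (q F * (T I F * q F / NN I F)) =
        (((univ.filter fun w : I → F => ω *ᵥ w = 0).card : ℝ) * q F ^ 2) * (T I F / NN I F) := by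
      ring
    rw [e1]
    refine (mul_le_mul_of_nonneg_right h4 (by positivity)).trans (le_of_eq ?_)
    field_simp
  refine h1.trans ((add_le_add h2 (h3.trans h5)).trans (le_of_eq ?_))
  ring

theorem GG_zero : GG (0 : Matrix I I F) ≤ T I F * (q F ^ 3 + q F ^ 2) := by
  have hq := q_two (F := F)
  have hN := NN_pos (I := I) (F := F)
  have hT := T_pos (I := I) (F := F)
  have h1 : GG (0 : Matrix I I F) ≤ ∑ v : I → F, ∑ w : I → F,
      (ii (v ⬝ᵥ ((0 : Matrix I I F) *ᵥ w) = 0) * (T I F * q F ^ 3 / NN I F ^ 2) +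
      ii ((0 : Matrix I I F) *ᵥ w = 0) * ii (w ≠ 0) * ii (v ≠ 0 ∧ ∃ c : F, w = c • v) *
        (T I F * q F / NN I F)) :=
    sum_le_sum fun v _ => sum_le_sum fun w _ => gg_term 0 v w
  simp only [sum_add_distrib] at h1
  have h2 : ∑ v : I → F, ∑ w : I → F, ii (v ⬝ᵥ ((0 : Matrix I I F) *ᵥ w) = 0) *
      (T I F * q F ^ 3 / NN I F ^ 2) ≤ T I F * q F ^ 3 := by
    have hK2 : 0 ≤ T I F * q F ^ 3 / NN I F ^ 2 := by positivity
    have e1 : ∑ v : I → F, ∑ w : I → F, ii (v ⬝ᵥ ((0 : Matrix I I F) *ᵥ w) = 0) *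
        (T I F * q F ^ 3 / NN I F ^ 2) ≤ ∑ v : I → F, ∑ w : I → F, T I F * q F ^ 3 / NN I F ^ 2 :=
      sum_le_sum fun v _ => sum_le_sum fun w _ => mul_le_of_le_one_left hK2 (ii_le_one _)
    refine e1.trans (le_of_eq ?_)
    simp only [sum_const, card_univ, nsmul_eq_mul]
    have e2 : (Fintype.card (I → F) : ℝ) = NN I F := rfl
    rw [e2]
    field_simp
  have h3 := gg_prop (I := I) (F := F) (fun w => (0 : Matrix I I F) *ᵥ w = 0)
  have h5 : ((univ.filter fun w : I → F => (0 : Matrix I I F) *ᵥ w = 0).card : ℝ) *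
      (q F * (T I F * q F / NN I F)) ≤ T I F * q F ^ 2 := by
    have e1 : ((univ.filter fun w : I → F => (0 : Matrix I I F) *ᵥ w = 0).card : ℝ) ≤ NN I F := by
      unfold NN
      exact_mod_cast card_le_univ _
    refine (mul_le_mul_of_nonneg_right e1 (by positivity)).trans (le_of_eq ?_)
    field_simp
  refine h1.trans ((add_le_add h2 (h3.trans h5)).trans (le_of_eq ?_))
  ring

section

variable {κ : Type} [Fintype κ] (W : κ → altS I F)

/-- the number of pairs of a member of the translate and a kernel vector -/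
def Zst (ω : Matrix I I F) (A : altS I F) : ℝ := ∑ c : κ, ∑ v : I → F, ii (Simple ω (A.1 + (W c).1) v)

/-- the sum of the squares -/
theorem sq_le (hW : Function.Injective W) (ω : Matrix I I F) :
    ∑ A : altS I F, Zst W ω A ^ 2 ≤ (Fintype.card κ : ℝ) * (T I F * (q F ^ 3 + q F ^ 2)) +
      (Fintype.card κ : ℝ) * ((Fintype.card κ : ℝ) - 1) * (T I F * (q F ^ 2 + q F + 1)) := by
  have hT := T_pos (I := I) (F := F)
  have h1 : ∀ A : altS I F, Zst W ω A ^ 2 ≤ ∑ c : κ, ∑ c' : κ, ∑ v : I → F, ∑ w : I → F,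
      ii (v ≠ 0 ∧ (A.1 + (W c).1) *ᵥ v = 0) * ii (w ≠ 0 ∧ (A.1 + (W c').1) *ᵥ w = 0) := by
    intro A
    have h2 : Zst W ω A ≤ ∑ c : κ, ∑ v : I → F, ii (v ≠ 0 ∧ (A.1 + (W c).1) *ᵥ v = 0) :=
      sum_le_sum fun c _ => sum_le_sum fun v _ => ii_mono fun h => ⟨h.1, h.2.1⟩
    have h3 : 0 ≤ Zst W ω A := sum_nonneg fun c _ => sum_nonneg fun v _ => ii_nonneg _
    refine (pow_le_pow_left₀ h3 h2 2).trans (le_of_eq ?_)
    rw [pow_two, sum_mul_sum]
    refine sum_congr rfl fun c _ => sum_congr rfl fun c' _ => ?_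
    rw [sum_mul_sum]
  refine (sum_le_sum fun A _ => h1 A).trans ?_
  have h4 : ∑ A : altS I F, ∑ c : κ, ∑ c' : κ, ∑ v : I → F, ∑ w : I → F,
      ii (v ≠ 0 ∧ (A.1 + (W c).1) *ᵥ v = 0) * ii (w ≠ 0 ∧ (A.1 + (W c').1) *ᵥ w = 0) =
      ∑ c : κ, ∑ c' : κ, GG ((W c').1 - (W c).1) := by
    rw [sum_comm]
    refine sum_congr rfl fun c _ => ?_
    rw [sum_comm]
    refine sum_congr rfl fun c' _ => ?_
    unfold GG
    rw [sum_comm]
    refine sum_congr rfl fun v _ => ?_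
    rw [sum_comm]
    refine sum_congr rfl fun w _ => ?_
    refine Fintype.sum_equiv (Equiv.addRight (W c)) _ _ fun A => ?_
    rw [Equiv.coe_addRight, AddSubgroup.coe_add]
    congr 3
    rw [add_assoc, add_sub_cancel]
  rw [h4]
  have h5 : ∀ c c' : κ, GG ((W c').1 - (W c).1) ≤ (if c = c' then T I F * (q F ^ 3 + q F ^ 2) -
      T I F * (q F ^ 2 + q F + 1) else 0) + T I F * (q F ^ 2 + q F + 1) := by
    intro c c'
    split_ifs with h
    · subst h
      rw [sub_self]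
      linarith [GG_zero (I := I) (F := F)]
    · rw [zero_add]
      refine GG_le _ ((W c').2.sub' (W c).2) fun h' => h (hW ?_)
      exact Subtype.ext (sub_eq_zero.1 h').symm
  refine (sum_le_sum fun c _ => sum_le_sum fun c' _ => h5 c c').trans (le_of_eq ?_)
  simp only [sum_add_distrib, sum_ite_eq, mem_univ, if_true, sum_const, card_univ, nsmul_eq_mul]
  ring

/-- **Second moment method.** -/
theorem good_ge (hI : 2 ≤ Fintype.card I) (hW : Function.Injective W) (ω : Matrix I I F) (hω : Alt ω)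
    (h0 : ω ≠ 0) (he : 0 ≤ q F - 1 / q F - (q F + 1) / (q F - 1)) :
    (Fintype.card κ : ℝ) * (q F - 1 / q F - (q F + 1) / (q F - 1)) ^ 2 * T I F ≤
      ((univ.filter fun A : altS I F => ∃ (c : κ) (v : I → F), Simple ω (A.1 + (W c).1) v).card : ℝ) *
        (q F ^ 3 + q F ^ 2 + ((Fintype.card κ : ℝ) - 1) * (q F ^ 2 + q F + 1)) := by
  have hT := T_pos (I := I) (F := F)
  set M : ℝ := (Fintype.card κ : ℝ) with hM
  set e : ℝ := q F - 1 / q F - (q F + 1) / (q F - 1) with hee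
  set D : ℝ := q F ^ 3 + q F ^ 2 + (M - 1) * (q F ^ 2 + q F + 1) with hD
  set Gd : ℝ := ((univ.filter fun A : altS I F => ∃ (c : κ) (v : I → F),
    Simple ω (A.1 + (W c).1) v).card : ℝ) with hGd
  have hM0 : 0 ≤ M := Nat.cast_nonneg _
  rcases Nat.eq_zero_or_pos (Fintype.card κ) with hκ | hκ
  · have hM' : M = 0 := by rw [hM, hκ, Nat.cast_zero]
    have hemp : IsEmpty κ := Fintype.card_eq_zero_iff.1 hκ
    have hG0 : Gd = 0 := by
      rw [hGd, Nat.cast_eq_zero, card_eq_zero, filter_eq_empty_iff]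
      rintro A _ ⟨c, -⟩
      exact hemp.false c
    rw [hM', hG0, zero_mul, zero_mul, zero_mul]
  have hMpos : 0 < M := by rw [hM]; exact_mod_cast hκ
  -- first moment
  have h1 : M * (T I F * e) ≤ ∑ A : altS I F, Zst W ω A := by
    unfold Zst
    rw [sum_comm]
    have h2 : ∀ c : κ, T I F * e ≤ ∑ A : altS I F, ∑ v : I → F, ii (Simple ω (A.1 + (W c).1) v) := by
      intro c
      refine (SS_ge hI ω hω h0).trans (le_of_eq ?_)
      refine (Fintype.sum_equiv (Equiv.addRight (W c)) _ _ fun A => ?_).symm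
      rw [Equiv.coe_addRight, AddSubgroup.coe_add]
    refine le_trans (le_of_eq ?_) (sum_le_sum fun c _ => h2 c)
    rw [sum_const, card_univ, nsmul_eq_mul]
  -- Cauchy
  have h3 : (∑ A : altS I F, Zst W ω A) ^ 2 ≤ Gd * ∑ A : altS I F, Zst W ω A ^ 2 := by
    have h4 := sum_mul_sq_le_sq_mul_sq (univ : Finset (altS I F))
      (fun A => ii (∃ (c : κ) (v : I → F), Simple ω (A.1 + (W c).1) v)) (fun A => Zst W ω A)
    have h5 : ∀ A : altS I F, ii (∃ (c : κ) (v : I → F), Simple ω (A.1 + (W c).1) v) * Zst W ω A =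
        Zst W ω A := by
      intro A
      by_cases h : ∃ (c : κ) (v : I → F), Simple ω (A.1 + (W c).1) v
      · rw [ii_true h, one_mul]
      · rw [ii_false h, zero_mul]
        push Not at h
        symm
        exact sum_eq_zero fun c _ => sum_eq_zero fun v _ => ii_false (h c v)
    have h6 : ∀ A : altS I F, ii (∃ (c : κ) (v : I → F), Simple ω (A.1 + (W c).1) v) ^ 2 =
        ii (∃ (c : κ) (v : I → F), Simple ω (A.1 + (W c).1) v) := by
      intro A
      unfold ii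
      split_ifs <;> norm_num
    simp only [h5, h6] at h4
    rw [sum_ii] at h4
    exact h4
  have h7 := sq_le W hW ω
  have hG : 0 ≤ Gd := Nat.cast_nonneg _
  have h8 : (M * (T I F * e)) ^ 2 ≤ Gd * (M * T I F * D) := by
    refine (pow_le_pow_left₀ (by positivity) h1 2).trans (h3.trans ?_)
    refine mul_le_mul_of_nonneg_left (h7.trans (le_of_eq ?_)) hG
    rw [hD]; ring
  have h9 : (M * T I F) * (M * e ^ 2 * T I F) ≤ (M * T I F) * (Gd * D) := by
    calc (M * T I F) * (M * e ^ 2 * T I F) = (M * (T I F * e)) ^ 2 := by ring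
      _ ≤ Gd * (M * T I F * D) := h8
      _ = _ := by ring
  exact le_of_mul_le_mul_left h9 (by positivity)

theorem good_ge_nat (hI : 2 ≤ Fintype.card I) (hW : Function.Injective W) (ω : Matrix I I F) (hω : Alt ω)
    (h0 : ω ≠ 0) (he : 0 ≤ q F - 1 / q F - (q F + 1) / (q F - 1)) :
    (Nat.card κ : ℝ) * (q F - 1 / q F - (q F + 1) / (q F - 1)) ^ 2 * (Nat.card (altS I F) : ℝ) ≤
      (Nat.card {A : altS I F // ∃ (c : κ) (v : I → F), Simple ω (A.1 + (W c).1) v} : ℝ) *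
        (q F ^ 3 + q F ^ 2 + ((Nat.card κ : ℝ) - 1) * (q F ^ 2 + q F + 1)) := by
  have h := good_ge W hI hW ω hω h0 he
  have h1 : (Nat.card (altS I F) : ℝ) = T I F := by
    unfold T
    rw [Nat.card_eq_fintype_card]
  have h2 : (Nat.card {A : altS I F // ∃ (c : κ) (v : I → F), Simple ω (A.1 + (W c).1) v} : ℝ) =
      ((univ.filter fun A : altS I F => ∃ (c : κ) (v : I → F), Simple ω (A.1 + (W c).1) v).card : ℝ) := by
    rw [Nat.card_eq_fintype_card, Fintype.card_subtype]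
  have h3 : (Nat.card κ : ℝ) = Fintype.card κ := by
    rw [Nat.card_eq_fintype_card]
  rw [h1, h2, h3]
  exact h

end

end Pool.Agent.W5h93.AP
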